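import Pool.Agent.H550R2.SP.Proc

set_option autoImplicit false
set_option linter.unusedSectionVars false

/-! Oracle procedures for 3-SAT are abstract procedures. -/

namespace Pool.Agent.H550R2.SP

open Finset Module Pool.Agent.H550R2.Lift Pool.Agent.H550R2.Lin Pool.Agent.H550R2.WH
open Pool.Agent.H550R2.Neg (rowT pr_rowT act idE)
open Pool.Agent.H550R2.Neg (act_add)
open Pool.Agent.H30R2.NS (A A_apply pp pp_nonneg Clause Phi Ext neg neg_apply neg_add Sat Satisfies
  Small phi_card phi_sat_iff exists_unsat)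

section proc

variable {V X O : Type} [Fintype V] [DecidableEq V] [Fintype O] {k m r : ℕ} {ι : V → X} (E : Ext ι)

theorem word_shift (F : Red (Clause k X ⊕ Fin r) O V (exA (act k E) r))
    (equi : ∀ (x : Set (Clause k X)) (a : Fin r → Bool) y o,
      F.out (fun z => inp (ind x) a ((exA (act k E) r y).symm z))
        (F.ρ (Multiplicative.ofAdd y) o) = F.out (inp (ind x) a) o)
    (T : Fin m × Fin k → V) (a : Fin r → Bool) (b : Fin m → ZMod 2) (g : V → ZMod 2) :
    F.out (inp (ind (Phi ι T (b + A T g))) a) =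
      actW F.ρ (Multiplicative.ofAdd g) (F.out (inp (ind (Phi ι T b)) a)) := by
  funext o
  have h := equi (Phi ι T b) a g ((F.ρ (Multiplicative.ofAdd g)).symm o)
  rw [Equiv.apply_symm_apply, inp_shift] at h
  exact h

theorem word_fix (hι : Function.Injective ι) (F : Red (Clause k X ⊕ Fin r) O V (exA (act k E) r))
    (equi : ∀ (x : Set (Clause k X)) (a : Fin r → Bool) y o,
      F.out (fun z => inp (ind x) a ((exA (act k E) r y).symm z))
        (F.ρ (Multiplicative.ofAdd y) o) = F.out (inp (ind x) a) o)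
    (T : Fin m × Fin k → V) {w : ℕ} (hw : 1 ≤ w) (hB : Base T w)
    (h1 : ∀ q ∈ F.rev, ∀ S : Finset (Fin m), w < S.card → S.card ≤ 2 * w → rowT T S ≠ q)
    (h2 : ∀ q ∈ F.allC, ∀ S : Finset (Fin m), w < S.card → S.card ≤ 2 * w → rowT T S ≠ q)
    (a : Fin r → Bool) (b : Fin m → ZMod 2) (H : Submodule (ZMod 2) (V → ZMod 2))
    (β : Fin m → ZMod 2) (hH : H ≤ St (actW F.ρ) (F.out (inp (ind (Phi ι T b)) a)))
    (hβ : ∀ x ∈ gens (A T) w H, pr x β = 0) :
    F.out (inp (ind (Phi ι T (b + β))) a) = F.out (inp (ind (Phi ι T b)) a) := by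
  classical
  funext o
  have hgap : ∀ x : Fin m → ZMod 2, wS x ≤ 2 * w → Perp (stab F.ρ o) (col1 T x) → wS x ≤ w := by
    intro x hx hp
    by_contra hlt
    rw [not_le] at hlt
    exact h1 _ (F.mem_rev hp) (sp x) hlt hx (col1_apply T x).symm
  let R : Submodule (ZMod 2) (Fin m → ZMod 2) :=
    { carrier := {x | wS x ≤ w ∧ Perp (stab F.ρ o) (col1 T x)}
      zero_mem' := by
        refine ⟨by rw [wS_zero]; exact Nat.zero_le _, fun γ _ => ?_⟩
        rw [map_zero, pr_zero_left]
      add_mem' := by
        rintro x y ⟨hx, hx'⟩ ⟨hy, hy'⟩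
        have h3 : Perp (stab F.ρ o) (col1 T (x + y)) := by
          intro γ hγ
          rw [map_add, pr_add_left, hx' γ hγ, hy' γ hγ, add_zero]
        refine ⟨hgap _ ?_ h3, h3⟩
        have := wS_add x y
        omega
      smul_mem' := by
        rintro c x ⟨hx, hx'⟩
        rcases zmod2_cases c with hc | hc
        · rw [hc, zero_smul]
          refine ⟨by rw [wS_zero]; exact Nat.zero_le _, fun γ _ => ?_⟩
          rw [map_zero, pr_zero_left]
        · rw [hc, one_smul]
          exact ⟨hx, hx'⟩ }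
  obtain ⟨h, hh, hR⟩ := exists_h (A T) R H β (fun x hx => hβ x ⟨hx.1.1, hx.2⟩)
  have hrun : (F.alg o).run (inp (ind (Phi ι T (b + A T h))) a) =
      (F.alg o).run (inp (ind (Phi ι T (b + A T h + (β + A T h)))) a) := by
    refine (F.alg o).run_eqH (exA_add (act_add E)) (stab F.ρ o) wS_add wS_zero ?_
      (phi_linked hι E a (b + A T h) (β + A T h) hw hB) (fun y hy => F.sym o y hy) ?_
    · intro x hx hp
      have h3 : x ∈ R := ⟨hgap x hx hp, hp⟩
      show pr x (β + A T h) = 0
      rw [pr_add_right, hR x h3]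
      exact CharTwo.add_self_eq_zero _
    · intro x hx hx' hc
      exact h2 _ (Finset.mem_biUnion.2 ⟨o, Finset.mem_univ _, hc⟩) (sp x) hx hx'
        (col1_apply T x).symm
  have h3 : b + A T h + (β + A T h) = b + β := by
    have h4 := add_self_fin (A T h)
    calc b + A T h + (β + A T h) = b + β + (A T h + A T h) := by abel
      _ = b + β := by rw [h4, add_zero]
  rw [h3] at hrun
  show (F.alg o).run _ = _
  rw [← hrun]
  have h4 := word_shift E F equi T a b h
  rw [(mem_St _ _ _).1 (hH hh)] at h4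
  exact congrFun h4 o

end proc

section final

variable {I V : Type} [Fintype V] [DecidableEq V] {r : ℕ} {A : (V → ZMod 2) → Equiv.Perm I}

open Classical in
/-- the functionals that have to be avoided -/
noncomputable def avoid (F : OProc I V A r) : Finset (V → ZMod 2) :=
  (univ.biUnion fun i => (F.qry i).rev ∪ (F.qry i).allC) ∪ F.dec.charsH (exA A r) ⊤

open Classical in
theorem card_perp_top : (univ.filter fun p : V → ZMod 2 => Perp ⊤ p).card ≤ 1 := by
  rw [Finset.card_le_one]
  have h : ∀ p : V → ZMod 2, Perp ⊤ p → p = 0 := by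
    intro p hp
    funext v
    have h1 := hp (Pi.single v 1) trivial
    unfold pr at h1
    rw [Finset.sum_eq_single v (fun i _ hi => by rw [Pi.single_eq_of_ne hi, mul_zero])
      (fun h => absurd (Finset.mem_univ _) h), Pi.single_eq_same, mul_one] at h1
    exact h1
  intro p hp q hq
  rw [h p (Finset.mem_filter.1 hp).2, h q (Finset.mem_filter.1 hq).2]

theorem card_avoid (F : OProc I V A r) : (avoid F).card + 1 ≤ (F.cost + 1) ^ 2 := by
  classical
  have h1 : (avoid F).card ≤
      ∑ i, (Fintype.card (F.O i) + Fintype.card (F.O i) * (F.qry i).size) + F.dec.size := by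
    refine (Finset.card_union_le _ _).trans (add_le_add ?_ ?_)
    · refine Finset.card_biUnion_le.trans (Finset.sum_le_sum fun i _ => ?_)
      exact (Finset.card_union_le _ _).trans (add_le_add (F.qry i).card_rev (F.qry i).card_allC)
    · refine (F.dec.card_charsH (exA A r) ⊤ (fun y _ => F.sym y)).trans ?_
      refine (Nat.mul_le_mul_right _ card_perp_top).trans ?_
      rw [one_mul]
  have h2 : ∀ i, (F.qry i).size ≤ F.cost := by
    intro i
    unfold OProc.cost
    have h3 := Finset.single_le_sum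
      (f := fun i => Fintype.card (F.O i) + (F.qry i).size) (fun j _ => Nat.zero_le _)
      (Finset.mem_univ i)
    have h4 : Fintype.card (F.O i) + (F.qry i).size ≤
      ∑ i, (Fintype.card (F.O i) + (F.qry i).size) := h3
    omega
  have h3 : ∑ i, Fintype.card (F.O i) + F.dec.size ≤ F.cost := by
    unfold OProc.cost
    refine add_le_add ?_ le_rfl
    exact Finset.sum_le_sum fun i _ => Nat.le_add_right _ _
  have h4 : ∑ i, Fintype.card (F.O i) * (F.qry i).size ≤ F.cost * F.cost := by
    calc ∑ i, Fintype.card (F.O i) * (F.qry i).size ≤ ∑ i, Fintype.card (F.O i) * F.cost :=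
          Finset.sum_le_sum fun i _ => Nat.mul_le_mul_left _ (h2 i)
      _ = (∑ i, Fintype.card (F.O i)) * F.cost := (Finset.sum_mul _ _ _).symm
      _ ≤ F.cost * F.cost := Nat.mul_le_mul_right _ (by omega)
  rw [Finset.sum_add_distrib] at h1
  have h5 : (F.cost + 1) ^ 2 = F.cost * F.cost + 2 * F.cost + 1 := by ring
  omega

end final

section sat

variable {V X : Type} [Fintype V] [DecidableEq V] {k m r : ℕ} {ι : V → X}
  (hι : Function.Injective ι) (E : Ext ι)

include hι

/-- the procedure on the systems with a fixed left-hand side -/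
noncomputable def toA (F : OProc (Clause k X) V (act k E) r) (S : ∀ i, Finset (F.O i → Bool))
    (T : Fin m × Fin k → V) (w : ℕ) (hw : 1 ≤ w) (hB : Base T w)
    (hav : ∀ q ∈ avoid F, ∀ S : Finset (Fin m), w < S.card → S.card ≤ 2 * w → rowT T S ≠ q) :
    AProc V m r (A T) w where
  X := fun i => F.O i → Bool
  ρ := fun i => actW (F.qry i).ρ
  W := fun i a b => (F.qry i).out (inp (ind (Phi ι T b)) a)
  hW := fun i a b g => word_shift E (F.qry i) (F.equi i) T a b g
  hfix := fun i a b H β hH hβ => by
    classical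
    refine word_fix E hι (F.qry i) (F.equi i) T hw hB ?_ ?_ a b H β hH hβ
    · intro q hq
      refine hav q (Finset.mem_union_left _ (Finset.mem_biUnion.2 ⟨i, Finset.mem_univ _, ?_⟩))
      exact Finset.mem_union_left _ hq
    · intro q hq
      refine hav q (Finset.mem_union_left _ (Finset.mem_biUnion.2 ⟨i, Finset.mem_univ _, ?_⟩))
      exact Finset.mem_union_right _ hq
  S := S

omit hι in
open Classical in
theorem answers_succ {I : Type} {A : (V → ZMod 2) → Equiv.Perm I} (F : OProc I V A r)
    (S : ∀ i, Finset (F.O i → Bool)) (v : I → ℝ) (j : ℕ) (i : Fin r) :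
    F.answers S v (j + 1) i =
      if i.1 = j then decide ((F.qry i).out (inp v (F.answers S v j)) ∈ S i)
      else F.answers S v j i := rfl

theorem toA_ans (F : OProc (Clause k X) V (act k E) r) (S : ∀ i, Finset (F.O i → Bool))
    (T : Fin m × Fin k → V) (w : ℕ) (hw : 1 ≤ w) (hB : Base T w)
    (hav : ∀ q ∈ avoid F, ∀ S : Finset (Fin m), w < S.card → S.card ≤ 2 * w → rowT T S ≠ q)
    (b : Fin m → ZMod 2) (j : ℕ) :
    (toA hι E F S T w hw hB hav).ans b j = F.answers S (ind (Phi ι T b)) j := by
  classical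
  induction j with
  | zero => rfl
  | succ j ih =>
    funext i
    rw [AProc.ans_succ, answers_succ, ih]
    by_cases hi : i.1 = j
    · rw [if_pos hi, if_pos hi]
      exact decide_eq_decide.2 Iff.rfl
    · rw [if_neg hi, if_neg hi]

theorem dec_eq (F : OProc (Clause k X) V (act k E) r)
    (T : Fin m × Fin k → V) (w : ℕ) (hw : 1 ≤ w) (hB : Base T w)
    (hav : ∀ q ∈ avoid F, ∀ S : Finset (Fin m), w < S.card → S.card ≤ 2 * w → rowT T S ≠ q)
    (a : Fin r → Bool) (b b' : Fin m → ZMod 2) :
    F.dec.run (inp (ind (Phi ι T b)) a) = F.dec.run (inp (ind (Phi ι T b')) a) := by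
  classical
  have h3 : b' = b + (b + b') := by
    have h4 := add_self_fin b
    rw [← add_assoc, h4, zero_add]
  have h5 : F.dec.run (inp (ind (Phi ι T b)) a) =
      F.dec.run (inp (ind (Phi ι T (b + (b + b')))) a) := by
    refine F.dec.run_eqH (exA_add (act_add E)) ⊤ wS_add wS_zero ?_
      (phi_linked hι E a b (b + b') hw hB) (fun y _ => F.sym y) ?_
    · intro x hx hp
      have h6 : rowT T (sp x) = 0 := by
        rw [← col1_apply]
        funext v
        have h1 := hp (Pi.single v 1) trivial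
        unfold pr at h1
        rw [Finset.sum_eq_single v (fun i _ hi => by rw [Pi.single_eq_of_ne hi, mul_zero])
          (fun h => absurd (Finset.mem_univ _) h), Pi.single_eq_same, mul_one] at h1
        exact h1
      have h7 : (sp x).card = 0 := by
        by_contra hne
        rcases le_or_gt (sp x).card w with h8 | h8
        · exact hB.low _ (Nat.one_le_iff_ne_zero.2 hne) h8 h6
        · exact hB.gap0 _ h8 hx h6
      rw [uB_apply, Finset.card_eq_zero.1 h7, Finset.sum_empty]
    · intro x hx hx' hc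
      exact hav _ (Finset.mem_union_right _ hc) (sp x) hx hx' (col1_apply T x).symm
  rw [h5, ← h3]

/-- **No oracle procedure decides the systems with a good left-hand side.** -/
theorem not_decides (F : OProc (Clause k X) V (act k E) r) (S : ∀ i, Finset (F.O i → Bool)) {s l t : ℕ}
    (hs : ∀ i, (S i).card ≤ s) (hrs : r * s ≤ 2 ^ l)
    (T : Fin m × Fin k → V) (w : ℕ) (hw : 1 ≤ w) (hB : Base T w) (hm : Fintype.card V < m)
    (hav : ∀ q ∈ avoid F, ∀ S : Finset (Fin m), w < S.card → S.card ≤ 2 * w → rowT T S ≠ q)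
    (hT : ∀ S : Finset (Fin m), 1 ≤ S.card → S.card ≤ t → rowT T S ≠ 0)
    (ht : (l * (1 + l) * r + l + 1) * w ≤ t) :
    ∃ b b', Sat (Phi ι T b) ∧ ¬ Sat (Phi ι T b') ∧
      F.acc S (ind (Phi ι T b)) = F.acc S (ind (Phi ι T b')) := by
  classical
  obtain ⟨bu, hbu⟩ := exists_unsat (ι := ι) hm T
  have hsat : ∀ b, Sat (Phi ι T b) ↔ ∃ g, A T g = b := by
    intro b
    constructor
    · rintro ⟨x, hx⟩
      exact ⟨fun v => x (ι v), funext fun j => (phi_sat_iff ι T b x).1 hx j⟩
    · rintro ⟨g, rfl⟩
      refine ⟨E.ext g, (phi_sat_iff ι T _ _).2 fun j => ?_⟩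
      rw [A_apply]
      exact Finset.sum_congr rfl fun l _ => E.apply g _
  have hbr : bu ∉ LinearMap.range (A T) := by
    rintro ⟨g, hg⟩
    exact hbu ((hsat bu).2 ⟨g, hg⟩)
  obtain ⟨φ, hφ1, hφ2⟩ := Submodule.exists_le_ker_of_notMem hbr
  obtain ⟨κ, hκ⟩ := exists_rep (prL (V := Fin m)) φ (fun x hx => by
    have h1 : x = 0 := by
      funext j
      have h2 := hx (Pi.single j 1)
      rw [prL_apply] at h2
      unfold pr at h2
      rw [Finset.sum_eq_single j (fun i _ hi => by rw [Pi.single_eq_of_ne hi, mul_zero])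
        (fun h => absurd (Finset.mem_univ _) h), Pi.single_eq_same, mul_one] at h2
      exact h2
    rw [h1, map_zero])
  have hcomm : ∀ x y : Fin m → ZMod 2, pr x y = pr y x := fun x y =>
    Finset.sum_congr rfl fun j _ => mul_comm _ _
  have hκ0 : κ ≠ 0 := by
    intro h
    apply hφ1
    rw [hκ, h, map_zero]
  have hκA : ∀ g, pr κ (A T g) = 0 := by
    intro g
    rw [hcomm]
    have h1 := hκ (A T g)
    rw [prL_apply] at h1
    rw [← h1]
    exact hφ2 ⟨g, rfl⟩
  have hB' : ∀ x, wS x ≤ t → (∀ g, pr x (A T g) = 0) → x = 0 := by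
    intro x hx hg
    have h6 : rowT T (sp x) = 0 := by
      rw [← col1_apply]
      funext v
      have h1 := hg (Pi.single v 1)
      rw [← pr_col1] at h1
      unfold pr at h1
      rw [Finset.sum_eq_single v (fun i _ hi => by rw [Pi.single_eq_of_ne hi, mul_zero])
        (fun h => absurd (Finset.mem_univ _) h), Pi.single_eq_same, mul_one] at h1
      exact h1
    have h7 : (sp x).card = 0 := by
      by_contra hne
      exact hT _ (Nat.one_le_iff_ne_zero.2 hne) hx h6
    funext j
    by_contra hj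
    have h8 : j ∈ sp x := (mem_sp x j).2 hj
    rw [Finset.card_eq_zero.1 h7] at h8
    exact absurd h8 (Finset.notMem_empty j)
  obtain ⟨g, b, hb, hans⟩ := (toA hι E F S T w hw hB hav).main hs hrs hB' ht κ hκ0 hκA
  refine ⟨A T g, b, (hsat _).2 ⟨g, rfl⟩, ?_, ?_⟩
  · intro h
    obtain ⟨g', rfl⟩ := (hsat b).1 h
    exact hb (hκA g')
  · rw [toA_ans, toA_ans] at hans
    unfold OProc.acc
    rw [hans]
    exact dec_eq hι E F T w hw hB hav _ _ _

end sat

end Pool.Agent.H550R2.SP
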