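import Pool.Agent.H550R2.SP.Lin

set_option autoImplicit false
set_option linter.unusedSectionVars false

/-! The combinatorial argument for oracle procedures. -/

namespace Pool.Agent.H550R2.SP

open Finset Module Pool.Agent.H550R2.Lift Pool.Agent.H550R2.Lin Pool.Agent.H550R2.WH

theorem exists_max {α : Type*} (p : α → Prop) (f : α → ℕ) (N : ℕ) (hne : ∃ a, p a)
    (hb : ∀ a, p a → f a ≤ N) : ∃ a, p a ∧ ∀ a', p a' → f a' ≤ f a := by
  have h1 : {n | ∃ a, p a ∧ f a = n}.Nonempty := by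
    obtain ⟨a, ha⟩ := hne
    exact ⟨f a, a, ha, rfl⟩
  have h2 : BddAbove {n | ∃ a, p a ∧ f a = n} := by
    refine ⟨N, ?_⟩
    rintro _ ⟨a, ha, rfl⟩
    exact hb a ha
  obtain ⟨a, ha, hf⟩ := Nat.sSup_mem h1 h2
  refine ⟨a, ha, fun a' ha' => ?_⟩
  rw [hf]
  exact le_csSup h2 ⟨a', ha', rfl⟩

section stab

variable {V : Type} [Fintype V] [DecidableEq V] {r : ℕ}

theorem St_rho {Z : Type} (ρ : Multiplicative (V → ZMod 2) →* Equiv.Perm Z) (z : Z)
    (g : V → ZMod 2) : St ρ (ρ (Multiplicative.ofAdd g) z) = St ρ z := by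
  ext γ
  rw [mem_St, mem_St, ← Equiv.Perm.mul_apply, ← map_mul, ← ofAdd_add, add_comm, ofAdd_add, map_mul,
    Equiv.Perm.mul_apply]
  exact (ρ (Multiplicative.ofAdd g)).injective.eq_iff

open Classical in
theorem card_filter_mem (H : Submodule (ZMod 2) (V → ZMod 2)) :
    (univ.filter fun g : V → ZMod 2 => g ∈ H).card = 2 ^ finrank (ZMod 2) H := by
  rw [← Fintype.card_subtype]
  have h1 := Module.card_eq_pow_finrank (K := ZMod 2) (V := H)
  rw [ZMod.card] at h1
  rw [← h1]

open Classical in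
/-- Translations that avoid the oracle sets. -/
theorem exists_avoid {X : Fin r → Type}
    (ρ : ∀ i, Multiplicative (V → ZMod 2) →* Equiv.Perm (X i)) (z : ∀ i, X i)
    (S : ∀ i, Finset (X i)) (I : Finset (Fin r)) (H : Submodule (ZMod 2) (V → ZMod 2)) {s l : ℕ}
    (hs : ∀ i, (S i).card ≤ s) (hrs : r * s ≤ 2 ^ l)
    (hI : ∀ i ∈ I, finrank (ZMod 2) (H ⊓ St (ρ i) (z i) : Submodule (ZMod 2) (V → ZMod 2)) + l <
      finrank (ZMod 2) H) :
    ∃ h ∈ H, ∀ i ∈ I, ρ i (Multiplicative.ofAdd h) (z i) ∉ S i := by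
  by_contra hcon
  push Not at hcon
  set HF : Finset (V → ZMod 2) := univ.filter fun g => g ∈ H with hHF
  have hfib : ∀ i (y : X i), (HF.filter fun h => ρ i (Multiplicative.ofAdd h) (z i) = y).card ≤
      2 ^ finrank (ZMod 2) (H ⊓ St (ρ i) (z i) : Submodule (ZMod 2) (V → ZMod 2)) := by
    intro i y
    rcases Finset.eq_empty_or_nonempty
      (HF.filter fun h => ρ i (Multiplicative.ofAdd h) (z i) = y) with h0 | ⟨h0, hh0⟩
    · rw [h0, Finset.card_empty]
      exact Nat.zero_le _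
    · rw [← card_filter_mem]
      rw [Finset.mem_filter, hHF, Finset.mem_filter] at hh0
      apply Finset.card_le_card_of_injOn (fun h => h - h0)
      · intro h hh
        have hh' := Finset.mem_filter.1 (Finset.mem_coe.1 hh)
        rw [hHF, Finset.mem_filter] at hh'
        refine Finset.mem_coe.2 (Finset.mem_filter.2 ⟨Finset.mem_univ _, ?_, ?_⟩)
        · exact Submodule.sub_mem _ hh'.1.2 hh0.1.2
        · show h - h0 ∈ St (ρ i) (z i)
          rw [mem_St, ← neg_add_eq_sub, ofAdd_add, map_mul, Equiv.Perm.mul_apply, hh'.2, ← hh0.2,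
            ofAdd_neg, map_inv]
          exact Equiv.symm_apply_apply _ _
      · intro h _ h' _ he
        exact sub_left_injective he
  have hsub : HF ⊆ I.biUnion fun i => (S i).biUnion fun y =>
      HF.filter fun h => ρ i (Multiplicative.ofAdd h) (z i) = y := by
    intro h hh
    obtain ⟨i, hi, hS⟩ := hcon h (Finset.mem_filter.1 hh).2
    rw [Finset.mem_biUnion]
    refine ⟨i, hi, ?_⟩
    rw [Finset.mem_biUnion]
    exact ⟨_, hS, Finset.mem_filter.2 ⟨hh, rfl⟩⟩
  have h1 : HF.card * (2 * 2 ^ l) ≤ r * s * HF.card := by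
    calc HF.card * (2 * 2 ^ l) ≤ (∑ i ∈ I, ∑ _y ∈ S i,
          2 ^ finrank (ZMod 2) (H ⊓ St (ρ i) (z i) : Submodule (ZMod 2) (V → ZMod 2))) *
            (2 * 2 ^ l) := by
          apply Nat.mul_le_mul_right
          refine (Finset.card_le_card hsub).trans (Finset.card_biUnion_le.trans ?_)
          refine Finset.sum_le_sum fun i _ => Finset.card_biUnion_le.trans ?_
          exact Finset.sum_le_sum fun y _ => hfib i y
      _ = ∑ i ∈ I, ∑ _y ∈ S i, 2 ^ (finrank (ZMod 2)
            (H ⊓ St (ρ i) (z i) : Submodule (ZMod 2) (V → ZMod 2)) + l + 1) := by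
          rw [Finset.sum_mul]
          apply Finset.sum_congr rfl
          intro i _
          rw [Finset.sum_mul]
          apply Finset.sum_congr rfl
          intro y _
          rw [pow_succ, pow_add]
          ring
      _ ≤ ∑ i ∈ I, ∑ _y ∈ S i, HF.card := by
          refine Finset.sum_le_sum fun i hi => Finset.sum_le_sum fun y _ => ?_
          rw [hHF, card_filter_mem]
          exact Nat.pow_le_pow_right (by norm_num) (hI i hi)
      _ ≤ ∑ _i ∈ I, s * HF.card := by
          refine Finset.sum_le_sum fun i _ => ?_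
          rw [Finset.sum_const, smul_eq_mul]
          exact Nat.mul_le_mul_right _ (hs i)
      _ = I.card * (s * HF.card) := by rw [Finset.sum_const, smul_eq_mul]
      _ ≤ r * (s * HF.card) := by
          apply Nat.mul_le_mul_right
          have := Finset.card_le_univ I
          rwa [Fintype.card_fin] at this
      _ = r * s * HF.card := (mul_assoc _ _ _).symm
  have h2 : 0 < HF.card := by
    rw [hHF, card_filter_mem]
    positivity
  have h3 : r * s * HF.card ≤ 2 ^ l * HF.card := Nat.mul_le_mul_right _ hrs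
  have h4 : 0 < 2 ^ l * HF.card := Nat.mul_pos (by positivity) h2
  have h5 : HF.card * (2 * 2 ^ l) = 2 * (2 ^ l * HF.card) := by ring
  omega

end stab

/-- An abstract procedure: words computed from right-hand sides and answers. -/
structure AProc (V : Type) [Fintype V] [DecidableEq V] (m r : ℕ)
    (D : (V → ZMod 2) →ₗ[ZMod 2] (Fin m → ZMod 2)) (w : ℕ) where
  /-- the words -/
  X : Fin r → Type
  /-- the action -/
  ρ : ∀ i, Multiplicative (V → ZMod 2) →* Equiv.Perm (X i)
  /-- the words computed -/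
  W : ∀ i, (Fin r → Bool) → (Fin m → ZMod 2) → X i
  hW : ∀ i a b g, W i a (b + D g) = ρ i (Multiplicative.ofAdd g) (W i a b)
  hfix : ∀ i a b (H : Submodule (ZMod 2) (V → ZMod 2)) β, H ≤ St (ρ i) (W i a b) →
    (∀ x ∈ gens D w H, pr x β = 0) → W i a (b + β) = W i a b
  /-- the oracle -/
  S : ∀ i, Finset (X i)

section main

variable {V : Type} [Fintype V] [DecidableEq V] {m r : ℕ}
  {D : (V → ZMod 2) →ₗ[ZMod 2] (Fin m → ZMod 2)} {w : ℕ}

open Classical in
/-- the answers to the first queries -/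
noncomputable def AProc.ans (F : AProc V m r D w) (b : Fin m → ZMod 2) : ℕ → Fin r → Bool
  | 0 => fun _ => false
  | j + 1 => fun i => if i.1 = j then decide (F.W i (F.ans b j) b ∈ F.S i) else F.ans b j i

variable (F : AProc V m r D w)

open Classical in
theorem AProc.ans_succ (b : Fin m → ZMod 2) (j : ℕ) (i : Fin r) :
    F.ans b (j + 1) i =
      if i.1 = j then decide (F.W i (F.ans b j) b ∈ F.S i) else F.ans b j i := rfl

/-- the word at position `i` -/
noncomputable def AProc.word (b : Fin m → ZMod 2) (i : Fin r) : F.X i := F.W i (F.ans b i.1) b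

theorem AProc.ans_eq (b b' : Fin m → ZMod 2) (P : ℕ)
    (h : ∀ i : Fin r, i.1 < P → (F.W i (F.ans b i.1) b' ∈ F.S i ↔ F.word b i ∈ F.S i)) :
    ∀ j, j ≤ P → F.ans b' j = F.ans b j := by
  intro j
  induction j with
  | zero => intro _; rfl
  | succ j ih =>
    intro hj
    have h1 := ih (by omega)
    funext i
    rw [AProc.ans_succ, AProc.ans_succ, h1]
    by_cases hi : i.1 = j
    · rw [if_pos hi, if_pos hi]
      have h2 := h i (by omega)
      unfold AProc.word at h2
      rw [hi] at h2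
      exact decide_eq_decide.2 h2
    · rw [if_neg hi, if_neg hi]

open Classical in
/-- the number of fixed words -/
noncomputable def AProc.cnt (g : V → ZMod 2) (H : Submodule (ZMod 2) (V → ZMod 2)) (P : ℕ) : ℕ :=
  (univ.filter fun i : Fin r => i.1 < P ∧ H ≤ St (F.ρ i) (F.word (D g) i)).card

theorem AProc.cnt_le (g : V → ZMod 2) (H : Submodule (ZMod 2) (V → ZMod 2)) (P : ℕ) :
    F.cnt g H P ≤ r := by
  classical
  refine (Finset.card_le_univ _).trans ?_
  rw [Fintype.card_fin]

/-- the invariant -/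
def AProc.Good (l : ℕ) (g : V → ZMod 2) (H : Submodule (ZMod 2) (V → ZMod 2)) (P : ℕ) : Prop :=
  P ≤ r ∧ (∀ i : Fin r, i.1 < P → H ≤ St (F.ρ i) (F.word (D g) i) ∨ F.word (D g) i ∉ F.S i) ∧
  cd H ≤ l * (1 + l) * r ∧
  (1 + l) * cd H ≤ l * (1 + l) * F.cnt g H P + l * finrank (ZMod 2) (UU D w H)

theorem AProc.good_of {l t : ℕ} (hB : ∀ x, wS x ≤ t → (∀ g, pr x (D g) = 0) → x = 0)
    (ht : (l * (1 + l) * r + l + 1) * w ≤ t) {g : V → ZMod 2}
    {H : Submodule (ZMod 2) (V → ZMod 2)} {P : ℕ} (h1 : P ≤ r)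
    (h2 : ∀ i : Fin r, i.1 < P → H ≤ St (F.ρ i) (F.word (D g) i) ∨ F.word (D g) i ∉ F.S i)
    (h3 : cd H ≤ l * (1 + l) * r + l)
    (h4 : (1 + l) * cd H ≤ l * (1 + l) * F.cnt g H P + l * finrank (ZMod 2) (UU D w H)) :
    F.Good l g H P := by
  refine ⟨h1, h2, ?_, h4⟩
  have h5 := (inj_U D w hB H (le_trans (Nat.mul_le_mul_right _ (by omega)) ht)).1
  have h6 := F.cnt_le g H P
  have h7 : l * finrank (ZMod 2) (UU D w H) ≤ l * cd H := Nat.mul_le_mul_left _ h5
  have h8 : l * (1 + l) * F.cnt g H P ≤ l * (1 + l) * r := Nat.mul_le_mul_left _ h6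
  have h9 : (1 + l) * cd H = cd H + l * cd H := by ring
  omega

theorem AProc.exists_state {l t : ℕ}
    (hB : ∀ x, wS x ≤ t → (∀ g, pr x (D g) = 0) → x = 0)
    (ht : (l * (1 + l) * r + l + 1) * w ≤ t) :
    ∃ g H P, F.Good l g H P ∧ ∀ g' H' P', F.Good l g' H' P' → cd H' + P' ≤ cd H + P := by
  obtain ⟨⟨g, H, P⟩, h1, h2⟩ := exists_max
    (fun z : (V → ZMod 2) × Submodule (ZMod 2) (V → ZMod 2) × ℕ => F.Good l z.1 z.2.1 z.2.2)
    (fun z => cd z.2.1 + z.2.2) (Fintype.card V + r)
    ⟨(0, ⊤, 0), F.good_of hB ht (Nat.zero_le _) (fun i hi => absurd hi (Nat.not_lt_zero _)) (by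
      unfold cd
      rw [finrank_top, Module.finrank_fintype_fun_eq_card, Nat.sub_self]
      exact Nat.zero_le _) (by
      unfold cd
      rw [finrank_top, Module.finrank_fintype_fun_eq_card, Nat.sub_self, mul_zero]
      exact Nat.zero_le _)⟩
    (fun z hz => add_le_add (Nat.sub_le _ _) hz.1)
  exact ⟨g, H, P, h1, fun g' H' P' h' => h2 (g', H', P') h'⟩

/-- shrinking the group to fix one more word -/
theorem AProc.shrink {l t : ℕ} (hB : ∀ x, wS x ≤ t → (∀ g, pr x (D g) = 0) → x = 0)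
    (ht : (l * (1 + l) * r + l + 1) * w ≤ t) {g : V → ZMod 2}
    {H : Submodule (ZMod 2) (V → ZMod 2)} {P P' : ℕ} (hG : F.Good l g H P) (hP : P ≤ P')
    (hP1 : P' ≤ P + 1) (hr : P' ≤ r) (i : Fin r) (hi : i.1 < P') (hi' : P ≤ i.1 ∨ P' = P)
    (hfix : ¬ H ≤ St (F.ρ i) (F.word (D g) i))
    (hsmall : finrank (ZMod 2) H ≤ finrank (ZMod 2)
      (H ⊓ St (F.ρ i) (F.word (D g) i) : Submodule (ZMod 2) (V → ZMod 2)) + l) :
    F.Good l g (H ⊓ St (F.ρ i) (F.word (D g) i)) P' ∧
      cd H + 1 ≤ cd (H ⊓ St (F.ρ i) (F.word (D g) i)) := by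
  classical
  set H' := H ⊓ St (F.ρ i) (F.word (D g) i) with hH'
  have hle : H' ≤ H := inf_le_left
  have hlt : H' < H := lt_of_le_of_ne hle fun h => hfix (by rw [← h]; exact inf_le_right)
  have h1 := Submodule.finrank_lt_finrank_of_lt hlt
  have h2 := cd_add H
  have h3 := cd_add H'
  obtain ⟨hG1, hG2, hG3, hG4⟩ := hG
  refine ⟨F.good_of hB ht hr ?_ (by omega) ?_, by omega⟩
  · intro i' hi2
    by_cases hi3 : i'.1 < P
    · rcases hG2 i' hi3 with h | h
      · exact Or.inl (hle.trans h)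
      · exact Or.inr h
    · left
      have h4 : i' = i := by
        rcases hi' with h5 | h5
        · apply Fin.ext
          omega
        · omega
      rw [h4]
      exact inf_le_right
  · have h4 : F.cnt g H P + 1 ≤ F.cnt g H' P' := by
      apply Finset.card_lt_card
      refine ⟨?_, ?_⟩
      · intro i' hi2
        rw [Finset.mem_filter] at hi2 ⊢
        exact ⟨hi2.1, by omega, hle.trans hi2.2.2⟩
      · intro hs
        have h5 : i ∈ univ.filter fun i : Fin r => i.1 < P' ∧ H' ≤ St (F.ρ i) (F.word (D g) i) :=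
          Finset.mem_filter.2 ⟨Finset.mem_univ _, hi, inf_le_right⟩
        exact hfix (Finset.mem_filter.1 (hs h5)).2.2
    have h5 : finrank (ZMod 2) (UU D w H) ≤ finrank (ZMod 2) (UU D w H') :=
      Submodule.finrank_mono (UU_mono D w hle)
    have h6 : (1 + l) * cd H' ≤ (1 + l) * (cd H + l) := Nat.mul_le_mul_left _ (by omega)
    have h7 : l * (1 + l) * (F.cnt g H P + 1) ≤ l * (1 + l) * F.cnt g H' P' :=
      Nat.mul_le_mul_left _ h4
    have h8 : l * finrank (ZMod 2) (UU D w H) ≤ l * finrank (ZMod 2) (UU D w H') :=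
      Nat.mul_le_mul_left _ h5
    have h9 : (1 + l) * (cd H + l) = (1 + l) * cd H + l * (1 + l) := by ring
    have h10 : l * (1 + l) * (F.cnt g H P + 1) = l * (1 + l) * F.cnt g H P + l * (1 + l) := by ring
    omega

end main

end Pool.Agent.H550R2.SP
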