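import Pool.Agent.H550R2.SP.Abs

set_option autoImplicit false
set_option linter.unusedSectionVars false

/-! The combinatorial argument for oracles with few strings. -/

namespace Pool.Agent.H550R2.SP

open Finset Module Pool.Agent.H550R2.Lift Pool.Agent.H550R2.Lin Pool.Agent.H550R2.WH

section group

variable {V X : Type} [Fintype V] [DecidableEq V]

open Classical in
/-- **A group under which all strings are fixed or have large orbits.** -/
theorem exists_group (ρ : Multiplicative (V → ZMod 2) →* Equiv.Perm X) (S : Finset X) (l : ℕ) :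
    ∃ H : Submodule (ZMod 2) (V → ZMod 2), cd H ≤ l * S.card ∧ ∀ y ∈ S, ¬ H ≤ St ρ y →
      finrank (ZMod 2) (H ⊓ St ρ y : Submodule (ZMod 2) (V → ZMod 2)) + l <
        finrank (ZMod 2) H := by
  obtain ⟨H, hH, hmax⟩ := exists_max
    (fun H : Submodule (ZMod 2) (V → ZMod 2) =>
      cd H ≤ l * (S.filter fun y => H ≤ St ρ y).card) (fun H => cd H) (Fintype.card V)
    ⟨⊤, by
      unfold cd
      rw [finrank_top, Module.finrank_fintype_fun_eq_card, Nat.sub_self]
      exact Nat.zero_le _⟩ (fun H _ => Nat.sub_le _ _)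
  refine ⟨H, hH.trans (Nat.mul_le_mul_left _ (Finset.card_filter_le _ _)), fun y hy hfix => ?_⟩
  by_contra hsmall
  rw [not_lt] at hsmall
  set H' := H ⊓ St ρ y with hH'
  have hle : H' ≤ H := inf_le_left
  have hlt : H' < H := lt_of_le_of_ne hle fun h => hfix (by rw [← h]; exact inf_le_right)
  have h1 := Submodule.finrank_lt_finrank_of_lt hlt
  have h2 := cd_add H
  have h3 := cd_add H'
  have h4 : (S.filter fun y => H ≤ St ρ y).card + 1 ≤ (S.filter fun y => H' ≤ St ρ y).card := by
    apply Finset.card_lt_card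
    refine ⟨?_, ?_⟩
    · intro z hz
      rw [Finset.mem_filter] at hz ⊢
      exact ⟨hz.1, hle.trans hz.2⟩
    · intro hs
      exact hfix (Finset.mem_filter.1 (hs (Finset.mem_filter.2 ⟨hy, inf_le_right⟩))).2
  have h5 : l * ((S.filter fun y => H ≤ St ρ y).card + 1) ≤
      l * (S.filter fun y => H' ≤ St ρ y).card := Nat.mul_le_mul_left _ h4
  have h6 : l * ((S.filter fun y => H ≤ St ρ y).card + 1) =
      l * (S.filter fun y => H ≤ St ρ y).card + l := by ring
  have h7 := hmax H' (by omega)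
  omega

end group

section main

variable {V X : Type} [Fintype V] [DecidableEq V] {m r : ℕ}
  {D : (V → ZMod 2) →ₗ[ZMod 2] (Fin m → ZMod 2)} {w l t s : ℕ}

open Classical in
/-- words that are not fixed can be moved out of the oracle set -/
theorem exists_move (ρ : Multiplicative (V → ZMod 2) →* Equiv.Perm X) (S : Finset X)
    (hrs : r * S.card ≤ 2 ^ l) (H : Submodule (ZMod 2) (V → ZMod 2))
    (hH : ∀ y ∈ S, ¬ H ≤ St ρ y →
      finrank (ZMod 2) (H ⊓ St ρ y : Submodule (ZMod 2) (V → ZMod 2)) + l <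
        finrank (ZMod 2) H) (z : Fin r → X) (I : Finset (Fin r))
    (hI : ∀ i ∈ I, ¬ H ≤ St ρ (z i)) :
    ∃ h ∈ H, ∀ i ∈ I, ρ (Multiplicative.ofAdd h) (z i) ∉ S := by
  obtain ⟨h, hh, hav⟩ := exists_avoid (X := fun _ : Fin r => X) (fun _ => ρ) z (fun _ => S)
    (I.filter fun i => ∃ h ∈ H, ρ (Multiplicative.ofAdd h) (z i) ∈ S) H (fun _ => le_rfl) hrs
    (by
      intro i hi
      rw [Finset.mem_filter] at hi
      obtain ⟨hi1, h, hh, hS⟩ := hi
      have h1 := hH _ hS (by rw [St_rho]; exact hI i hi1)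
      rw [St_rho] at h1
      exact h1)
  refine ⟨h, hh, fun i hi hS => ?_⟩
  exact hav i (Finset.mem_filter.2 ⟨hi, h, hh, hS⟩) hS

/-- **The combinatorial argument for oracles with few strings.** -/
theorem main2 (ρ : Multiplicative (V → ZMod 2) →* Equiv.Perm X)
    (W : Fin r → (Fin r → Bool) → (Fin m → ZMod 2) → X)
    (hW : ∀ i a b g, W i a (b + D g) = ρ (Multiplicative.ofAdd g) (W i a b))
    (hfix : ∀ i a b (H : Submodule (ZMod 2) (V → ZMod 2)) β, H ≤ St ρ (W i a b) →
      (∀ x ∈ gens D w H, pr x β = 0) → W i a (b + β) = W i a b) (S : Finset X)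
    (hrs : r * S.card ≤ 2 ^ l)
    (hB : ∀ x, wS x ≤ t → (∀ g, pr x (D g) = 0) → x = 0)
    (ht : (l * S.card + 1) * w ≤ t)
    (κ : Fin m → ZMod 2) (hκ0 : κ ≠ 0) (hκ : ∀ g, pr κ (D g) = 0) :
    ∃ g b, pr κ b ≠ 0 ∧
      (AProc.mk (fun _ => X) (fun _ => ρ) W hW hfix (fun _ => S)).ans b r =
        (AProc.mk (fun _ => X) (fun _ => ρ) W hW hfix (fun _ => S)).ans (D g) r := by
  classical
  set F : AProc V m r D w := AProc.mk (fun _ => X) (fun _ => ρ) W hW hfix (fun _ => S) with hF
  obtain ⟨H, hcd, hH⟩ := exists_group ρ S l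
  -- the history of some solvable system contains no unfixed word of the oracle set
  obtain ⟨⟨g, P⟩, ⟨hP, hgood⟩, hmax⟩ := exists_max
    (fun z : (V → ZMod 2) × ℕ => z.2 ≤ r ∧ ∀ i : Fin r, i.1 < z.2 →
      H ≤ St ρ (F.word (D z.1) i) ∨ F.word (D z.1) i ∉ F.S i) (fun z => z.2) r
    ⟨(0, 0), Nat.zero_le _, fun i hi => absurd hi (Nat.not_lt_zero _)⟩ (fun z hz => hz.1)
  have hPr : P = r := by
    by_contra hne
    have hlt : P < r := lt_of_le_of_ne hP hne
    obtain ⟨h, hh, hav⟩ := exists_move (r := r) ρ S hrs H hH (fun i => F.word (D g) i)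
      (univ.filter fun i : Fin r => i.1 < P + 1 ∧ ¬ H ≤ St ρ (F.word (D g) i))
      (fun i hi => (Finset.mem_filter.1 hi).2.2)
    have hav' : ∀ i : Fin r, i.1 < P + 1 → ¬ H ≤ St ρ (F.word (D g) i) →
        F.ρ i (Multiplicative.ofAdd h) (F.word (D g) i) ∉ F.S i := fun i h1 h2 =>
      hav i (Finset.mem_filter.2 ⟨Finset.mem_univ _, h1, h2⟩)
    have hans : ∀ j, j ≤ P → F.ans (D (g + h)) j = F.ans (D g) j := by
      apply F.ans_eq
      intro i hi
      rw [map_add, F.hW]
      show F.ρ i (Multiplicative.ofAdd h) (F.word (D g) i) ∈ F.S i ↔ _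
      by_cases hf : H ≤ St ρ (F.word (D g) i)
      · have h0 : F.ρ i (Multiplicative.ofAdd h) (F.word (D g) i) = F.word (D g) i :=
          (mem_St _ _ _).1 (hf hh)
        rw [h0]
      · have h1 := hav' i (by omega) hf
        have h2 := (hgood i hi).resolve_left hf
        exact ⟨fun h3 => absurd h3 h1, fun h3 => absurd h3 h2⟩
    have hword : ∀ i : Fin r, i.1 < P + 1 →
        F.word (D (g + h)) i = F.ρ i (Multiplicative.ofAdd h) (F.word (D g) i) := by
      intro i hi
      unfold AProc.word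
      rw [hans i.1 (by omega), map_add, F.hW]
    have h1 := hmax (g + h, P + 1) ⟨hlt, fun i hi => by
      show H ≤ St ρ (F.word (D (g + h)) i) ∨ F.word (D (g + h)) i ∉ F.S i
      rw [hword i hi]
      by_cases hf : H ≤ St ρ (F.word (D g) i)
      · left
        have h2 : St ρ (F.ρ i (Multiplicative.ofAdd h) (F.word (D g) i)) =
          St ρ (F.word (D g) i) := St_rho _ _ _
        rw [h2]
        exact hf
      · exact Or.inr (hav' i hi hf)⟩
    have h2 : P + 1 ≤ P := h1
    omega
  have hκU : κ ∉ UU D w H := by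
    intro h
    have h1 := (inj_U D w hB H (le_trans (Nat.mul_le_mul_right _ (by omega)) ht)).2
    exact hκ0 (h1 κ h hκ)
  obtain ⟨φ, hφ1, hφ2⟩ := Submodule.exists_le_ker_of_notMem hκU
  obtain ⟨δ, hδ⟩ := exists_rep (prL (V := Fin m)) φ (fun x hx => by
    have h1 : x = 0 := by
      funext j
      have h2 := hx (Pi.single j 1)
      rw [prL_apply] at h2
      unfold pr at h2
      rw [Finset.sum_eq_single j (fun i _ hi => by rw [Pi.single_eq_of_ne hi, mul_zero])
        (fun h => absurd (Finset.mem_univ _) h), Pi.single_eq_same, mul_one] at h2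
      exact h2
    rw [h1, map_zero])
  have hδU : ∀ x ∈ UU D w H, pr x δ = 0 := by
    intro x hx
    have h1 := hδ x
    rw [prL_apply] at h1
    rw [← h1]
    exact hφ2 hx
  have hδκ : pr κ δ ≠ 0 := by
    have h1 := hδ κ
    rw [prL_apply] at h1
    rw [← h1]
    exact hφ1
  set z : Fin r → X := fun i => W i (F.ans (D g) i.1) (D g + δ) with hz
  have hzfix : ∀ i, H ≤ St ρ (F.word (D g) i) → z i = F.word (D g) i := by
    intro i hi
    exact hfix i _ _ H δ hi fun x hx => hδU x (Submodule.subset_span hx)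
  have hzfix' : ∀ i, H ≤ St ρ (z i) → F.word (D g) i = z i := by
    intro i hi
    have h1 := hfix i (F.ans (D g) i.1) (D g + δ) H δ hi
      fun x hx => hδU x (Submodule.subset_span hx)
    have h2 : D g + δ + δ = D g := by
      have h3 : δ + δ = 0 := by
        funext j
        exact CharTwo.add_self_eq_zero (δ j)
      rw [add_assoc, h3, add_zero]
    rw [h2] at h1
    exact h1
  obtain ⟨h, hh, hav⟩ := exists_move (r := r) ρ S hrs H hH z
    (univ.filter fun i : Fin r => ¬ H ≤ St ρ (F.word (D g) i))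
    (fun i hi hz' => (Finset.mem_filter.1 hi).2 (by rw [hzfix' i hz']; exact hz'))
  refine ⟨g, D g + δ + D h, ?_, ?_⟩
  · rw [pr_add_right, pr_add_right, hκ, hκ, zero_add, add_zero]
    exact hδκ
  · refine F.ans_eq (D g) (D g + δ + D h) r (fun i hi => ?_) r le_rfl
    rw [F.hW]
    show ρ (Multiplicative.ofAdd h) (z i) ∈ S ↔ F.word (D g) i ∈ S
    by_cases hf : H ≤ St ρ (F.word (D g) i)
    · rw [hzfix i hf, (mem_St _ _ _).1 (hf hh)]
    · have h1 := hav i (Finset.mem_filter.2 ⟨Finset.mem_univ _, hf⟩)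
      have h2 : F.word (D g) i ∉ S := (hgood i (by show i.1 < P; rw [hPr]; exact i.2)).resolve_left hf
      exact ⟨fun h3 => absurd h3 h1, fun h3 => absurd h3 h2⟩

end main

end Pool.Agent.H550R2.SP
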