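import Pool.Agent.H550R2.LP.RedDefs

set_option autoImplicit false

/-! Symmetric oracle procedures: definitions. -/

namespace Pool.Agent.H550R2.Lin

open Finset Pool.Agent.H550R2.Lift

/-- The group acts on the input and fixes the answers. -/
def exA {I V : Type} (A : (V → ZMod 2) → Equiv.Perm I) (r : ℕ) (y : V → ZMod 2) :
    Equiv.Perm (I ⊕ Fin r) := Equiv.sumCongr (A y) (Equiv.refl _)

/-- The input vector followed by the answers. -/
noncomputable def inp {I : Type} {r : ℕ} (v : I → ℝ) (a : Fin r → Bool) : I ⊕ Fin r → ℝ :=
  Sum.elim v fun i => if a i = true then 1 else 0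

/-- A symmetric oracle procedure with `r` adaptive queries: the bits of the query strings and the
decision are computed by adaptive algorithms with linear programs from the input and the answers to
the earlier queries. -/
structure OProc (I V : Type) (A : (V → ZMod 2) → Equiv.Perm I) (r : ℕ) where
  /-- the positions in the query strings -/
  O : Fin r → Type
  fin : ∀ i, Fintype (O i)
  /-- the computation of the query strings -/
  qry : ∀ i, Red (I ⊕ Fin r) (O i) V (exA A r)
  equi : ∀ i (x : Set I) (a : Fin r → Bool) y o,
    (qry i).out (fun z => inp (ind x) a ((exA A r y).symm z))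
      ((qry i).ρ (Multiplicative.ofAdd y) o) = (qry i).out (inp (ind x) a) o
  /-- the decision -/
  dec : LAlg (I ⊕ Fin r)
  sym : ∀ y, dec.Sym (exA A r y)

attribute [instance] OProc.fin

variable {I V : Type} {A : (V → ZMod 2) → Equiv.Perm I} {r : ℕ}

open Classical in
/-- The answers to the first `j` queries, where the oracle is given by the sets `S i`; the other
answers are set to `false`. -/
noncomputable def OProc.answers (F : OProc I V A r) (S : ∀ i, Finset (F.O i → Bool)) (v : I → ℝ) :
    ℕ → Fin r → Bool
  | 0 => fun _ => false
  | j + 1 => fun i => if i.1 = j then decide ((F.qry i).out (inp v (F.answers S v j)) ∈ S i)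
      else F.answers S v j i

/-- The decision of the procedure. -/
noncomputable def OProc.acc (F : OProc I V A r) (S : ∀ i, Finset (F.O i → Bool)) (v : I → ℝ) :
    Bool := F.dec.run (inp v (F.answers S v r))

/-- The total number of bits of the query strings and of nonnegative variables of the linear
programs. -/
def OProc.cost (F : OProc I V A r) : ℕ :=
  ∑ i, (Fintype.card (F.O i) + (F.qry i).size) + F.dec.size

end Pool.Agent.H550R2.Lin
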