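import Pool.Agent.H550R2.SP.Defs

set_option autoImplicit false

/-! Symmetric oracle procedures with one format of query strings: definitions. -/

namespace Pool.Agent.H550R2.Lin

open Finset Pool.Agent.H550R2.Lift

/-- A symmetric oracle procedure with `r` adaptive queries whose query strings have the positions
`O`: the bits of the query strings and the decision are computed by adaptive algorithms with linear
programs from the input and the answers to the earlier queries. -/
structure UProc (I V : Type) (A : (V → ZMod 2) → Equiv.Perm I) (r : ℕ) where
  /-- the positions in the query strings -/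
  O : Type
  fin : Fintype O
  /-- the action on the positions -/
  ρ : Multiplicative (V → ZMod 2) →* Equiv.Perm O
  /-- the algorithms for the bits of the queries -/
  alg : Fin r → O → LAlg (I ⊕ Fin r)
  symq : ∀ i o y, ρ (Multiplicative.ofAdd y) o = o → (alg i o).Sym (exA A r y)
  equi : ∀ i (x : Set I) (a : Fin r → Bool) y o,
    (alg i (ρ (Multiplicative.ofAdd y) o)).run (fun z => inp (ind x) a ((exA A r y).symm z)) =
      (alg i o).run (inp (ind x) a)
  /-- the decision -/
  dec : LAlg (I ⊕ Fin r)
  sym : ∀ y, dec.Sym (exA A r y)

attribute [instance] UProc.fin

variable {I V : Type} {A : (V → ZMod 2) → Equiv.Perm I} {r : ℕ}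

open Classical in
/-- The answers to the first `j` queries for the oracle set `S`; the other answers are set to
`false`. -/
noncomputable def UProc.answers (F : UProc I V A r) (S : Finset (F.O → Bool)) (v : I → ℝ) :
    ℕ → Fin r → Bool
  | 0 => fun _ => false
  | j + 1 => fun i => if i.1 = j then
      decide ((fun o => (F.alg i o).run (inp v (F.answers S v j))) ∈ S)
      else F.answers S v j i

/-- The decision of the procedure. -/
noncomputable def UProc.acc (F : UProc I V A r) (S : Finset (F.O → Bool)) (v : I → ℝ) :
    Bool := F.dec.run (inp v (F.answers S v r))

/-- The length of the query strings and the total number of nonnegative variables of the linear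
programs. -/
def UProc.cost (F : UProc I V A r) : ℕ :=
  Fintype.card F.O + ∑ i, ∑ o, (F.alg i o).size + F.dec.size

end Pool.Agent.H550R2.Lin
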