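import Pool.Agent.H550R2.LP.RedDefs

set_option autoImplicit false

/-! Symmetric threshold reductions: definitions. -/

namespace Pool.Agent.H550R2.Lin

open Finset Pool.Agent.H550R2.Lift

/-- A symmetric threshold reduction: finitely many queries, whose strings are computed by adaptive
algorithms with linear programs, oracle sets and weights. -/
structure TRed (I V : Type) (A : (V → ZMod 2) → Equiv.Perm I) where
  /-- the queries -/
  J : Type
  finJ : Fintype J
  /-- the positions in the query strings -/
  O : J → Type
  fin : ∀ j, Fintype (O j)
  /-- the computation of the query strings -/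
  qry : ∀ j, Red I (O j) V A
  equi : ∀ j (x : Set I) y o, (qry j).out (fun z => ind x ((A y).symm z))
    ((qry j).ρ (Multiplicative.ofAdd y) o) = (qry j).out (ind x) o
  /-- the oracle sets -/
  S : ∀ j, Finset (O j → Bool)
  /-- the weights -/
  c : J → ℝ

attribute [instance] TRed.finJ TRed.fin

variable {I V : Type} {A : (V → ZMod 2) → Equiv.Perm I}

open Classical in
/-- The sum of the weights of the queries that are answered positively. -/
noncomputable def TRed.value (F : TRed I V A) (x : Set I) : ℝ :=
  ∑ j, if (F.qry j).out (ind x) ∈ F.S j then F.c j else 0

/-- The cost of a query: its length and the number of nonnegative variables of the linear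
programs. -/
def TRed.cost (F : TRed I V A) (j : F.J) : ℕ := Fintype.card (F.O j) + (F.qry j).size

/-- The total weight. -/
noncomputable def TRed.weight (F : TRed I V A) : ℝ := ∑ j, |F.c j|

end Pool.Agent.H550R2.Lin
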