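import Pool.Agent.H550R2.LP.RedDefs

set_option autoImplicit false

/-! Symmetric truth-table reductions: definitions. -/

namespace Pool.Agent.H550R2.Lin

open Finset Pool.Agent.H550R2.Lift

/-- Finitely many nonadaptive queries, whose strings are computed by adaptive algorithms with linear
programs, oracle sets, and a real polynomial in the answers, given by monomials with
coefficients. -/
structure PRed (I V : Type) (A : (V → ZMod 2) → Equiv.Perm I) where
  /-- the queries -/
  J : Type
  finJ : Fintype J
  /-- the positions in the query strings -/
  O : J → Type
  fin : ∀ j, Fintype (O j)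
  /-- the computation of the query strings -/
  qry : ∀ j, Red I (O j) V A
  equi : ∀ j (x : Set I) y o, (qry j).out (fun z => ind x ((A y).symm z))
    ((qry j).ρ (Multiplicative.ofAdd y) o) = (qry j).out (ind x) o
  /-- the oracle sets -/
  S : ∀ j, Finset (O j → Bool)
  /-- the monomials -/
  K : Type
  finK : Fintype K
  /-- the queries of a monomial -/
  mon : K → Finset J
  /-- the coefficients -/
  c : K → ℝ

attribute [instance] PRed.finJ PRed.fin PRed.finK

variable {I V : Type} {A : (V → ZMod 2) → Equiv.Perm I}

open Classical in
/-- The answer to query `j`. -/
noncomputable def PRed.ans (F : PRed I V A) (x : Set I) (j : F.J) : ℝ :=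
  if (F.qry j).out (ind x) ∈ F.S j then 1 else 0

/-- The value of the polynomial at the answers. -/
noncomputable def PRed.value (F : PRed I V A) (x : Set I) : ℝ :=
  ∑ k, F.c k * ∏ j ∈ F.mon k, F.ans x j

/-- The total number of bits of the query strings and of nonnegative variables of the linear
programs for the queries of a monomial. -/
def PRed.cost (F : PRed I V A) (k : F.K) : ℕ :=
  ∑ j ∈ F.mon k, (Fintype.card (F.O j) + (F.qry j).size)

/-- The total number of bits of all query strings and of nonnegative variables of the linear
programs. -/
def PRed.total (F : PRed I V A) : ℕ := ∑ j, (Fintype.card (F.O j) + (F.qry j).size)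

/-- The sum of the absolute values of the coefficients. -/
noncomputable def PRed.weight (F : PRed I V A) : ℝ := ∑ k, |F.c k|

end Pool.Agent.H550R2.Lin
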