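import Pool.Agent.H550R2.WH.Alg
import Pool.Agent.H550R2.LP.Dist

set_option autoImplicit false
set_option linter.unusedSectionVars false

/-! Linear algebra for oracle procedures. -/

namespace Pool.Agent.H550R2.SP

open Finset Module Pool.Agent.H550R2.Lift Pool.Agent.H550R2.Lin Pool.Agent.H550R2.WH

variable {V : Type} [Fintype V] [DecidableEq V] {m : ℕ}

/-- the combinations that are invisible on a group of translations -/
def Ann (D : (V → ZMod 2) →ₗ[ZMod 2] (Fin m → ZMod 2)) (H : Submodule (ZMod 2) (V → ZMod 2)) :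
    Submodule (ZMod 2) (Fin m → ZMod 2) where
  carrier := {x | ∀ g ∈ H, pr x (D g) = 0}
  zero_mem' := fun g _ => pr_zero_left _
  add_mem' := fun {x y} hx hy g hg => by rw [pr_add_left, hx g hg, hy g hg, add_zero]
  smul_mem' := fun c x hx g hg => by
    rw [← prL_apply, map_smul, LinearMap.smul_apply, prL_apply, hx g hg, smul_zero]

/-- the translations on which some combinations are invisible -/
def Pp (D : (V → ZMod 2) →ₗ[ZMod 2] (Fin m → ZMod 2)) (W : Submodule (ZMod 2) (Fin m → ZMod 2)) :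
    Submodule (ZMod 2) (V → ZMod 2) where
  carrier := {g | ∀ x ∈ W, pr x (D g) = 0}
  zero_mem' := fun x _ => by rw [map_zero, ← prL_apply, map_zero]
  add_mem' := fun {g h} hg hh x hx => by rw [map_add, pr_add_right, hg x hx, hh x hx, add_zero]
  smul_mem' := fun c g hg x hx => by
    rw [map_smul, ← prL_apply, map_smul, prL_apply, hg x hx, smul_zero]

/-- the short invisible combinations -/
def gens (D : (V → ZMod 2) →ₗ[ZMod 2] (Fin m → ZMod 2)) (w : ℕ)
    (H : Submodule (ZMod 2) (V → ZMod 2)) : Set (Fin m → ZMod 2) := {x | wS x ≤ w ∧ x ∈ Ann D H}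

/-- their span -/
def UU (D : (V → ZMod 2) →ₗ[ZMod 2] (Fin m → ZMod 2)) (w : ℕ)
    (H : Submodule (ZMod 2) (V → ZMod 2)) : Submodule (ZMod 2) (Fin m → ZMod 2) :=
  Submodule.span (ZMod 2) (gens D w H)

/-- the codimension -/
noncomputable def cd (H : Submodule (ZMod 2) (V → ZMod 2)) : ℕ :=
  Fintype.card V - finrank (ZMod 2) H

theorem cd_add (H : Submodule (ZMod 2) (V → ZMod 2)) :
    cd H + finrank (ZMod 2) H = Fintype.card V := by
  have h1 : finrank (ZMod 2) H ≤ finrank (ZMod 2) (V → ZMod 2) := Submodule.finrank_le H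
  rw [Module.finrank_fintype_fun_eq_card] at h1
  unfold cd
  omega

variable (D : (V → ZMod 2) →ₗ[ZMod 2] (Fin m → ZMod 2)) (w : ℕ)

theorem Ann_mono {H H' : Submodule (ZMod 2) (V → ZMod 2)} (h : H' ≤ H) : Ann D H ≤ Ann D H' :=
  fun _ hx g hg => hx g (h hg)

theorem UU_mono {H H' : Submodule (ZMod 2) (V → ZMod 2)} (h : H' ≤ H) : UU D w H ≤ UU D w H' :=
  Submodule.span_mono fun _ hx => ⟨hx.1, Ann_mono D h hx.2⟩

theorem UU_le (H : Submodule (ZMod 2) (V → ZMod 2)) : UU D w H ≤ Ann D H :=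
  Submodule.span_le.2 fun _ hx => hx.2

theorem exists_h (W : Submodule (ZMod 2) (Fin m → ZMod 2))
    (H : Submodule (ZMod 2) (V → ZMod 2)) (δ : Fin m → ZMod 2)
    (h : ∀ x ∈ W ⊓ Ann D H, pr x δ = 0) : ∃ g ∈ H, ∀ x ∈ W, pr x δ = pr x (D g) := by
  let f : W →ₗ[ZMod 2] H →ₗ[ZMod 2] ZMod 2 :=
    (prL (V := Fin m)).compl₁₂ W.subtype (D.comp H.subtype)
  have hf : ∀ (x : W) (g : H), f x g = pr x.1 (D g.1) := fun _ _ => rfl
  obtain ⟨g, hg⟩ := exists_rep f (((prL (V := Fin m)).flip δ).comp W.subtype) (fun x hx => by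
    apply h x.1
    refine ⟨x.2, fun g hg => ?_⟩
    exact hx ⟨g, hg⟩)
  exact ⟨g.1, g.2, fun x hx => hg ⟨x, hx⟩⟩

/-- the rank of the pairing -/
theorem dim_ge (W : Submodule (ZMod 2) (Fin m → ZMod 2)) (H : Submodule (ZMod 2) (V → ZMod 2)) :
    finrank (ZMod 2) H + finrank (ZMod 2) (W ⊓ Ann D H : Submodule (ZMod 2) (Fin m → ZMod 2)) ≤
      finrank (ZMod 2) W +
        finrank (ZMod 2) (H ⊓ Pp D W : Submodule (ZMod 2) (V → ZMod 2)) := by
  let f : (V → ZMod 2) →ₗ[ZMod 2] W →ₗ[ZMod 2] ZMod 2 :=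
    ((prL (V := Fin m)).compl₁₂ W.subtype D).flip
  have hf : ∀ (g : V → ZMod 2) (x : W), f g x = pr x.1 (D g) := fun _ _ => rfl
  have h1 := finrank_map_inf f H
  have h2 : finrank (ZMod 2) (H ⊓ LinearMap.ker f : Submodule (ZMod 2) (V → ZMod 2)) ≤
      finrank (ZMod 2) (H ⊓ Pp D W : Submodule (ZMod 2) (V → ZMod 2)) := by
    apply Submodule.finrank_mono
    rintro g ⟨hg1, hg2⟩
    refine ⟨hg1, fun x hx => ?_⟩
    have h4 : f g = 0 := hg2
    rw [← hf g ⟨x, hx⟩, h4]
    rfl
  have h3 : H.map f ≤ ((Ann D H).comap W.subtype).dualAnnihilator := by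
    rintro _ ⟨g, hg, rfl⟩
    rw [Submodule.mem_dualAnnihilator]
    intro x hx
    exact hx g hg
  have h4 := Subspace.finrank_add_finrank_dualAnnihilator_eq ((Ann D H).comap W.subtype)
  have h5 : finrank (ZMod 2) ((Ann D H).comap W.subtype) =
      finrank (ZMod 2) (W ⊓ Ann D H : Submodule (ZMod 2) (Fin m → ZMod 2)) := by
    have h6 : ((Ann D H).comap W.subtype).map W.subtype = W ⊓ Ann D H := by
      rw [Submodule.map_comap_subtype]
    rw [← h6]
    exact (Submodule.equivMapOfInjective W.subtype W.subtype_injective _).finrank_eq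
  have h7 : finrank (ZMod 2) (H.map f) ≤
      finrank (ZMod 2) (((Ann D H).comap W.subtype).dualAnnihilator) := Submodule.finrank_mono h3
  have h8 : finrank (ZMod 2) ((Ann D H).comap W.subtype) +
      finrank (ZMod 2) (((Ann D H).comap W.subtype).dualAnnihilator) = finrank (ZMod 2) W := h4
  omega

theorem wS_sum {ι : Type} (s : Finset ι) (c : ι → ZMod 2) (f : ι → (Fin m → ZMod 2)) {w : ℕ}
    (hf : ∀ i ∈ s, wS (f i) ≤ w) : wS (∑ i ∈ s, c i • f i) ≤ s.card * w := by
  classical
  induction s using Finset.induction_on with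
  | empty => rw [Finset.sum_empty, wS_zero]; exact Nat.zero_le _
  | insert a s ha ih =>
    rw [Finset.sum_insert ha, Finset.card_insert_of_notMem ha]
    have h1 : wS (c a • f a) ≤ w := by
      have hc : c a = 0 ∨ c a = 1 := zmod2_cases (c a)
      rcases hc with hc | hc
      · rw [hc, zero_smul, wS_zero]
        exact Nat.zero_le _
      · rw [hc, one_smul]
        exact hf a (Finset.mem_insert_self a s)
    have h2 := ih fun i hi => hf i (Finset.mem_insert_of_mem hi)
    have h3 := wS_add (c a • f a) (∑ i ∈ s, c i • f i)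
    calc _ ≤ w + s.card * w := h3.trans (add_le_add h1 h2)
      _ = (s.card + 1) * w := by ring

/-- **Short combinations are independent modulo the invisible ones.** -/
theorem inj_U {t : ℕ} (hB : ∀ x, wS x ≤ t → (∀ g, pr x (D g) = 0) → x = 0)
    (H : Submodule (ZMod 2) (V → ZMod 2)) (ht : (cd H + 1) * w ≤ t) :
    finrank (ZMod 2) (UU D w H) ≤ cd H ∧ ∀ x ∈ UU D w H, (∀ g, pr x (D g) = 0) → x = 0 := by
  classical
  obtain ⟨f, hf1, hf2, hf3⟩ := Submodule.exists_fun_fin_finrank_span_eq (ZMod 2) (gens D w H)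
  have hle : finrank (ZMod 2) (UU D w H) ≤ cd H := by
    by_contra hlt
    rw [not_le] at hlt
    have hlt' : cd H + 1 ≤ finrank (ZMod 2) (Submodule.span (ZMod 2) (gens D w H)) := hlt
    let f' : Fin (cd H + 1) → (Fin m → ZMod 2) := fun i => f (Fin.castLE hlt' i)
    have hind : LinearIndependent (ZMod 2) f' :=
      hf3.comp _ (Fin.castLE_injective hlt')
    -- the functionals vanish on H
    let L : (Fin (cd H + 1) → ZMod 2) →ₗ[ZMod 2] Module.Dual (ZMod 2) (V → ZMod 2) :=
      ((prL (V := Fin m)).compl₂ D).comp (Fintype.linearCombination (ZMod 2) f')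
    have hL : ∀ c g, L c g = pr (∑ i, c i • f' i) (D g) := fun c g => by
      show pr (Fintype.linearCombination (ZMod 2) f' c) (D g) = _
      rw [Fintype.linearCombination_apply]
    have hr : LinearMap.range L ≤ H.dualAnnihilator := by
      rintro _ ⟨c, rfl⟩
      rw [Submodule.mem_dualAnnihilator]
      intro g hg
      rw [hL]
      have h1 : ∑ i, c i • f' i ∈ Ann D H :=
        Submodule.sum_mem _ fun i _ => Submodule.smul_mem _ _ (hf1 _).2
      exact h1 g hg
    have h2 := Subspace.finrank_add_finrank_dualAnnihilator_eq H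
    rw [Module.finrank_fintype_fun_eq_card] at h2
    have h3 := Submodule.finrank_mono hr
    have h4 := LinearMap.finrank_range_add_finrank_ker L
    rw [Module.finrank_fintype_fun_eq_card, Fintype.card_fin] at h4
    have h5 := cd_add H
    have h6 : 0 < finrank (ZMod 2) (LinearMap.ker L) := by omega
    rw [Module.finrank_pos_iff_exists_ne_zero] at h6
    obtain ⟨⟨c, hc⟩, hc0⟩ := h6
    have hc1 : L c = 0 := hc
    have h7 : ∑ i, c i • f' i = 0 := by
      apply hB
      · refine (wS_sum Finset.univ c f' (w := w) fun i _ => (hf1 _).1).trans ?_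
        rw [Finset.card_univ, Fintype.card_fin]
        exact ht
      · intro g
        rw [← hL, hc1]
        rfl
    have h8 := Fintype.linearIndependent_iff.1 hind c h7
    exact hc0 (Subtype.ext (funext h8))
  refine ⟨hle, fun x hx hg => ?_⟩
  have hx' : x ∈ Submodule.span (ZMod 2) (Set.range f) := by
    rw [hf2]
    exact hx
  obtain ⟨c, hc⟩ := (Submodule.mem_span_range_iff_exists_fun (ZMod 2)).1 hx'
  refine hB x ?_ hg
  rw [← hc]
  refine (wS_sum Finset.univ c f (w := w) fun i _ => (hf1 _).1).trans ?_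
  rw [Finset.card_univ, Fintype.card_fin]
  refine le_trans ?_ ht
  exact Nat.mul_le_mul_right _ (hle.trans (Nat.le_succ _))

end Pool.Agent.H550R2.SP
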