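import Pool.Agent.H550R2.SP.Abs

set_option autoImplicit false
set_option linter.unusedSectionVars false

/-! The combinatorial argument for oracle procedures: maximal states. -/

namespace Pool.Agent.H550R2.SP

open Finset Module Pool.Agent.H550R2.Lift Pool.Agent.H550R2.Lin Pool.Agent.H550R2.WH

variable {V : Type} [Fintype V] [DecidableEq V] {m r : ℕ}
  {D : (V → ZMod 2) →ₗ[ZMod 2] (Fin m → ZMod 2)} {w : ℕ} (F : AProc V m r D w) {l t s : ℕ}

/-- in a maximal state the words that are not fixed have large orbits -/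
theorem AProc.large (hB : ∀ x, wS x ≤ t → (∀ g, pr x (D g) = 0) → x = 0)
    (ht : (l * (1 + l) * r + l + 1) * w ≤ t) {g : V → ZMod 2}
    {H : Submodule (ZMod 2) (V → ZMod 2)} {P : ℕ} (hG : F.Good l g H P)
    (hmax : ∀ g' H' P', F.Good l g' H' P' → cd H' + P' ≤ cd H + P) (i : Fin r) (hi : i.1 < P)
    (hfix : ¬ H ≤ St (F.ρ i) (F.word (D g) i)) :
    finrank (ZMod 2) (H ⊓ St (F.ρ i) (F.word (D g) i) : Submodule (ZMod 2) (V → ZMod 2)) + l <
      finrank (ZMod 2) H := by
  by_contra hcon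
  rw [not_lt] at hcon
  obtain ⟨h1, h2⟩ := F.shrink hB ht hG le_rfl (Nat.le_succ P) hG.1 i hi (Or.inr rfl) hfix hcon
  have h3 := hmax _ _ _ h1
  omega

/-- a maximal state covers all queries -/
theorem AProc.full (hB : ∀ x, wS x ≤ t → (∀ g, pr x (D g) = 0) → x = 0)
    (ht : (l * (1 + l) * r + l + 1) * w ≤ t) (hs : ∀ i, (F.S i).card ≤ s)
    (hrs : r * s ≤ 2 ^ l) {g : V → ZMod 2}
    {H : Submodule (ZMod 2) (V → ZMod 2)} {P : ℕ} (hG : F.Good l g H P)
    (hmax : ∀ g' H' P', F.Good l g' H' P' → cd H' + P' ≤ cd H + P) : P = r := by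
  classical
  by_contra hP
  have hPr : P < r := lt_of_le_of_ne hG.1 hP
  let i0 : Fin r := ⟨P, hPr⟩
  by_cases hf0 : H ≤ St (F.ρ i0) (F.word (D g) i0)
  · have h1 : F.Good l g H (P + 1) := by
      refine F.good_of hB ht hPr ?_ (le_trans hG.2.2.1 (Nat.le_add_right _ _)) ?_
      · intro i hi
        by_cases hi1 : i.1 < P
        · exact hG.2.1 i hi1
        · have h4 : i = i0 := Fin.ext (by show i.1 = P; omega)
          rw [h4]
          exact Or.inl hf0
      · refine hG.2.2.2.trans (add_le_add ?_ le_rfl)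
        apply Nat.mul_le_mul_left
        apply Finset.card_le_card
        intro i hi
        rw [Finset.mem_filter] at hi ⊢
        exact ⟨hi.1, by omega, hi.2.2⟩
    have h3 := hmax _ _ _ h1
    omega
  · by_cases hsm : finrank (ZMod 2) H ≤ finrank (ZMod 2)
      (H ⊓ St (F.ρ i0) (F.word (D g) i0) : Submodule (ZMod 2) (V → ZMod 2)) + l
    · obtain ⟨h1, h2⟩ := F.shrink hB ht hG (Nat.le_succ P) le_rfl hPr i0 (Nat.lt_succ_self P)
        (Or.inl le_rfl) hf0 hsm
      have h3 := hmax _ _ _ h1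
      omega
    · rw [not_le] at hsm
      obtain ⟨h, hh, hav⟩ := exists_avoid F.ρ (F.word (D g)) F.S
        (univ.filter fun i : Fin r => i.1 < P + 1 ∧ ¬ H ≤ St (F.ρ i) (F.word (D g) i)) H hs hrs
        (by
          intro i hi
          have hi' := (Finset.mem_filter.1 hi).2
          by_cases hi1 : i.1 < P
          · exact F.large hB ht hG hmax i hi1 hi'.2
          · have h4 : i = i0 := Fin.ext (by show i.1 = P; omega)
            rw [h4]
            exact hsm)
      have hav' : ∀ i : Fin r, i.1 < P + 1 → ¬ H ≤ St (F.ρ i) (F.word (D g) i) →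
          F.ρ i (Multiplicative.ofAdd h) (F.word (D g) i) ∉ F.S i := fun i h1 h2 =>
        hav i (Finset.mem_filter.2 ⟨Finset.mem_univ _, h1, h2⟩)
      have hans : ∀ j, j ≤ P → F.ans (D (g + h)) j = F.ans (D g) j := by
        apply F.ans_eq
        intro i hi
        rw [map_add, F.hW]
        show F.ρ i (Multiplicative.ofAdd h) (F.word (D g) i) ∈ F.S i ↔ _
        by_cases hf : H ≤ St (F.ρ i) (F.word (D g) i)
        · rw [(mem_St _ _ _).1 (hf hh)]
        · have h1 := hav' i (by omega) hf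
          have h2 := (hG.2.1 i hi).resolve_left hf
          exact ⟨fun h3 => absurd h3 h1, fun h3 => absurd h3 h2⟩
      have hword : ∀ i : Fin r, i.1 < P + 1 →
          F.word (D (g + h)) i = F.ρ i (Multiplicative.ofAdd h) (F.word (D g) i) := by
        intro i hi
        unfold AProc.word
        rw [hans i.1 (by omega), map_add, F.hW]
      have hst : ∀ i : Fin r, i.1 < P + 1 →
          St (F.ρ i) (F.word (D (g + h)) i) = St (F.ρ i) (F.word (D g) i) := by
        intro i hi
        rw [hword i hi, St_rho]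
      have h1 : F.Good l (g + h) H (P + 1) := by
        refine F.good_of hB ht hPr ?_ (le_trans hG.2.2.1 (Nat.le_add_right _ _)) ?_
        · intro i hi
          rw [hst i hi, hword i hi]
          by_cases hf : H ≤ St (F.ρ i) (F.word (D g) i)
          · exact Or.inl hf
          · exact Or.inr (hav' i hi hf)
        · refine hG.2.2.2.trans (add_le_add ?_ le_rfl)
          apply Nat.mul_le_mul_left
          apply Finset.card_le_card
          intro i hi
          rw [Finset.mem_filter] at hi ⊢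
          exact ⟨hi.1, by omega, by rw [hst i (by omega)]; exact hi.2.2⟩
      have h3 := hmax _ _ _ h1
      omega

/-- **A maximal state is saturated.** -/
theorem AProc.saturated (hB : ∀ x, wS x ≤ t → (∀ g, pr x (D g) = 0) → x = 0)
    (ht : (l * (1 + l) * r + l + 1) * w ≤ t) {g : V → ZMod 2}
    {H : Submodule (ZMod 2) (V → ZMod 2)} {P : ℕ} (hG : F.Good l g H P)
    (hmax : ∀ g' H' P', F.Good l g' H' P' → cd H' + P' ≤ cd H + P)
    (H' : Submodule (ZMod 2) (V → ZMod 2)) (hH' : H' ≤ H)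
    (hsm : finrank (ZMod 2) H ≤ finrank (ZMod 2) H' + l) (x : Fin m → ZMod 2)
    (hx : x ∈ UU D w H') (hxA : x ∈ Ann D H) : x ∈ UU D w H := by
  classical
  by_contra hxn
  obtain ⟨K, ⟨hK1, hK2, y, hy1, hy2, hy3⟩, hKmax⟩ := exists_max
    (fun K : Submodule (ZMod 2) (V → ZMod 2) => K ≤ H ∧
      finrank (ZMod 2) H ≤ finrank (ZMod 2) K + l ∧
      ∃ x, x ∈ UU D w K ∧ x ∈ Ann D H ∧ x ∉ UU D w H)
    (fun K => finrank (ZMod 2) K) (finrank (ZMod 2) H)
    ⟨H', hH', hsm, x, hx, hxA, hxn⟩ (fun K hK => Submodule.finrank_mono hK.1)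
  set K' := H ⊓ Pp D (UU D w K) with hK'
  have hKK : K ≤ K' := le_inf hK1 fun k hk z hz => UU_le D w K hz k hk
  have hUK : UU D w K ≤ UU D w K' := by
    apply Submodule.span_mono
    rintro z ⟨hz1, hz2⟩
    refine ⟨hz1, fun k hk => ?_⟩
    exact hk.2 z (Submodule.subset_span ⟨hz1, hz2⟩)
  have h1 := hKmax K' ⟨inf_le_left, hK2.trans (Nat.add_le_add_right (Submodule.finrank_mono hKK) l),
    y, hUK hy1, hy2, hy3⟩
  have h2 := dim_ge D (UU D w K) H
  have h3 : finrank (ZMod 2) (UU D w H) + 1 ≤ finrank (ZMod 2)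
      (UU D w K ⊓ Ann D H : Submodule (ZMod 2) (Fin m → ZMod 2)) := by
    apply Submodule.finrank_lt_finrank_of_lt
    refine lt_of_le_of_ne (le_inf (UU_mono D w hK1) (UU_le D w H)) fun h => hy3 ?_
    rw [h]
    exact ⟨hy1, hy2⟩
  have h4 := cd_add H
  have h5 := cd_add K
  have h6 : K ≠ H := fun h => hy3 (by rw [← h]; exact hy1)
  have h7 := Submodule.finrank_lt_finrank_of_lt (lt_of_le_of_ne hK1 h6)
  have h8 : F.Good l g K P := by
    refine F.good_of hB ht hG.1 ?_ (by have := hG.2.2.1; omega) ?_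
    · intro i hi
      rcases hG.2.1 i hi with h | h
      · exact Or.inl (hK1.trans h)
      · exact Or.inr h
    · have h9 : F.cnt g H P ≤ F.cnt g K P := by
        apply Finset.card_le_card
        intro i hi
        rw [Finset.mem_filter] at hi ⊢
        exact ⟨hi.1, hi.2.1, hK1.trans hi.2.2⟩
      have h10 := hG.2.2.2
      have h11 : l * (1 + l) * F.cnt g H P ≤ l * (1 + l) * F.cnt g K P :=
        Nat.mul_le_mul_left _ h9
      obtain ⟨j, hj⟩ : ∃ j, cd K = cd H + j := ⟨cd K - cd H, by omega⟩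
      have hjl : j ≤ l := by omega
      have h12 : finrank (ZMod 2) (UU D w H) + 1 + j ≤ finrank (ZMod 2) (UU D w K) := by
        have h1' : finrank (ZMod 2) K' ≤ finrank (ZMod 2) K := h1
        rw [← hK'] at h2
        omega
      have h13 : l * (finrank (ZMod 2) (UU D w H) + 1 + j) ≤ l * finrank (ZMod 2) (UU D w K) :=
        Nat.mul_le_mul_left _ h12
      rw [hj]
      have h14 : l * (finrank (ZMod 2) (UU D w H) + 1 + j) =
          l * finrank (ZMod 2) (UU D w H) + l + l * j := by ring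
      have h15 : (1 + l) * (cd H + j) = (1 + l) * cd H + j + l * j := by ring
      omega
  have h9 := hmax _ _ _ h8
  omega

theorem add_self_fin (x : Fin m → ZMod 2) : x + x = 0 := by
  funext j
  exact CharTwo.add_self_eq_zero (x j)

/-- **The combinatorial argument.** -/
theorem AProc.main (hs : ∀ i, (F.S i).card ≤ s) (hrs : r * s ≤ 2 ^ l)
    (hB : ∀ x, wS x ≤ t → (∀ g, pr x (D g) = 0) → x = 0)
    (ht : (l * (1 + l) * r + l + 1) * w ≤ t)
    (κ : Fin m → ZMod 2) (hκ0 : κ ≠ 0) (hκ : ∀ g, pr κ (D g) = 0) :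
    ∃ g b, pr κ b ≠ 0 ∧ F.ans b r = F.ans (D g) r := by
  classical
  obtain ⟨g, H, P, hG, hmax⟩ := F.exists_state hB ht
  have hP := F.full hB ht hs hrs hG hmax
  have hκU : κ ∉ UU D w H := by
    intro h
    have h1 := (inj_U D w hB H (le_trans (Nat.mul_le_mul_right _ (by
      have := hG.2.2.1
      omega)) ht)).2
    exact hκ0 (h1 κ h hκ)
  obtain ⟨φ, hφ1, hφ2⟩ := Submodule.exists_le_ker_of_notMem hκU
  obtain ⟨δ, hδ⟩ := exists_rep (prL (V := Fin m)) φ (fun x hx => by
    have h1 : x = 0 := by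
      funext j
      have h2 := hx (Pi.single j 1)
      rw [prL_apply] at h2
      unfold pr at h2
      rw [Finset.sum_eq_single j (fun i _ hi => by rw [Pi.single_eq_of_ne hi, mul_zero])
        (fun h => absurd (Finset.mem_univ _) h), Pi.single_eq_same, mul_one] at h2
      exact h2
    rw [h1, map_zero])
  have hδU : ∀ x ∈ UU D w H, pr x δ = 0 := by
    intro x hx
    have h1 := hδ x
    rw [prL_apply] at h1
    rw [← h1]
    exact hφ2 hx
  have hδκ : pr κ δ ≠ 0 := by
    have h1 := hδ κ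
    rw [prL_apply] at h1
    rw [← h1]
    exact hφ1
  set z : ∀ i, F.X i := fun i => F.W i (F.ans (D g) i.1) (D g + δ) with hz
  have hzfix : ∀ i, H ≤ St (F.ρ i) (F.word (D g) i) → z i = F.word (D g) i := by
    intro i hi
    exact F.hfix i _ _ H δ hi fun x hx => hδU x (Submodule.subset_span hx)
  have hzlarge : ∀ i, ¬ H ≤ St (F.ρ i) (F.word (D g) i) →
      finrank (ZMod 2) (H ⊓ St (F.ρ i) (z i) : Submodule (ZMod 2) (V → ZMod 2)) + l <
        finrank (ZMod 2) H := by
    intro i hi
    by_contra hcon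
    rw [not_lt] at hcon
    set H' := H ⊓ St (F.ρ i) (z i) with hH'
    have hsat := F.saturated hB ht hG hmax H' inf_le_left hcon
    obtain ⟨h, hh, hδh⟩ := exists_h D (UU D w H') H δ fun x hx => hδU x (hsat x hx.1 hx.2)
    have h1 := F.hfix i (F.ans (D g) i.1) (D g + δ) H' (δ + D h) inf_le_right (fun x hx => by
      rw [pr_add_right, hδh x (Submodule.subset_span hx)]
      exact CharTwo.add_self_eq_zero _)
    have h2 : D g + δ + (δ + D h) = D g + D h := by
      have h3 := add_self_fin δ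
      calc D g + δ + (δ + D h) = D g + (δ + δ) + D h := by abel
        _ = D g + D h := by rw [h3, add_zero]
    rw [h2, F.hW] at h1
    have h3 : St (F.ρ i) (z i) = St (F.ρ i) (F.word (D g) i) := by
      rw [hz]
      show St (F.ρ i) (F.W i (F.ans (D g) i.1) (D g + δ)) = _
      rw [← h1, St_rho]
      rfl
    have h4 := F.large hB ht hG hmax i (by rw [hP]; exact i.2) hi
    rw [← h3] at h4
    have h5 : finrank (ZMod 2) H' + l < finrank (ZMod 2) H := h4
    omega
  obtain ⟨h, hh, hav⟩ := exists_avoid F.ρ z F.S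
    (univ.filter fun i : Fin r => ¬ H ≤ St (F.ρ i) (F.word (D g) i)) H hs hrs
    (fun i hi => hzlarge i (Finset.mem_filter.1 hi).2)
  refine ⟨g, D g + δ + D h, ?_, ?_⟩
  · rw [pr_add_right, pr_add_right, hκ, hκ, zero_add, add_zero]
    exact hδκ
  · refine F.ans_eq (D g) (D g + δ + D h) r (fun i hi => ?_) r le_rfl
    rw [F.hW]
    show F.ρ i (Multiplicative.ofAdd h) (z i) ∈ F.S i ↔ _
    by_cases hf : H ≤ St (F.ρ i) (F.word (D g) i)
    · rw [hzfix i hf, (mem_St _ _ _).1 (hf hh)]
    · have h1 := hav i (Finset.mem_filter.2 ⟨Finset.mem_univ _, hf⟩)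
      have h2 := (hG.2.1 i (by rw [hP]; exact i.2)).resolve_left hf
      exact ⟨fun h3 => absurd h3 h1, fun h3 => absurd h3 h2⟩

end Pool.Agent.H550R2.SP
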