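import Pool.Agent.H550R2.SP.Proc2
import Pool.Agent.H30R2.NS.Three

set_option autoImplicit false
set_option linter.unusedSectionVars false

/-! Oracle procedures for 3-SAT: the bound. -/

namespace Pool.Agent.H550R2.SP

open Finset Pool.Agent.H550R2.Lift Pool.Agent.H550R2.Lin Pool.Agent.H550R2.WH
open Pool.Agent.H550R2.Neg (rowT pr_rowT act idE)
open Pool.Agent.H30R2.NS (A A_apply pp pp_nonneg Clause Phi Ext neg neg_apply neg_add Sat Satisfies
  Small phi_card phi_sat_iff exists_unsat three_q)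

theorem ratio_le {n t : ℕ} (hn : 1 ≤ n) (ht : 8000 * t ≤ n) :
    9933 / 1000 * (((n + 1 : ℕ) : ℝ) / Fintype.card (Fin n)) ^ 2 *
      ((2 * t : ℕ) / Fintype.card (Fin n)) ≤ 1 / 100 := by
  rw [Fintype.card_fin]
  have hn0 : (0 : ℝ) < n := by exact_mod_cast hn
  have hn1 : (1 : ℝ) ≤ n := by exact_mod_cast hn
  have h1 : ((n + 1 : ℕ) : ℝ) / n ≤ 2 := by
    rw [div_le_iff₀ hn0]
    push_cast
    linarith
  have h1' : 0 ≤ ((n + 1 : ℕ) : ℝ) / n := by positivity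
  have h2 : ((2 * t : ℕ) : ℝ) / n ≤ 1 / 4000 := by
    rw [div_le_iff₀ hn0]
    have h3 : (8000 : ℝ) * t ≤ n := by exact_mod_cast ht
    push_cast
    linarith
  have h2' : 0 ≤ ((2 * t : ℕ) : ℝ) / n := by positivity
  have h3 : (((n + 1 : ℕ) : ℝ) / n) ^ 2 ≤ 4 := by nlinarith
  calc 9933 / 1000 * (((n + 1 : ℕ) : ℝ) / n) ^ 2 * (((2 * t : ℕ) : ℝ) / n)
      ≤ 9933 / 1000 * 4 * (1 / 4000) :=
        mul_le_mul (by linarith) h2 h2' (by norm_num)
    _ ≤ 1 / 100 := by norm_num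

open Classical in
/-- **Good left-hand sides exist.** -/
theorem exists_T (n w t : ℕ) (hw : 1 ≤ w) (hwt : w ≤ t) (ht : 8000 * t ≤ n)
    (Q : Finset (Fin n → ZMod 2)) (hQ : Q.card + 1 ≤ 4 ^ w) :
    ∃ T : Fin (n + 1) × Fin 3 → Fin n, Base T w ∧
      (∀ q ∈ Q, ∀ S : Finset (Fin (n + 1)), w < S.card → S.card ≤ 2 * w → rowT T S ≠ q) ∧
      ∀ S : Finset (Fin (n + 1)), 1 ≤ S.card → S.card ≤ t → rowT T S ≠ 0 := by
  have hn : 1 ≤ n := by omega
  have hV : 0 < Fintype.card (Fin n) := by rw [Fintype.card_fin]; omega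
  obtain ⟨a1, a2⟩ := three_q (V := Fin n) hV (n + 1) w (ratio_le hn (by omega))
  obtain ⟨b1, b2⟩ := three_q (V := Fin n) hV (n + 1) t (ratio_le hn ht)
  have h1 := base_bad (k := 3) (m := n + 1) Q w _ _ a1 a2
  have h2 := base_bad (k := 3) (m := n + 1) (∅ : Finset (Fin n → ZMod 2)) t _ _ b1 b2
  by_contra hcon
  push Not at hcon
  set M : ℝ := ((Fintype.card (Fin (n + 1) × Fin 3 → Fin n) : ℕ) : ℝ) with hM
  have hM0 : 0 < M := by
    have : Nonempty (Fin n) := ⟨⟨0, by omega⟩⟩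
    rw [hM]
    exact_mod_cast (Fintype.card_pos : 0 < Fintype.card (Fin (n + 1) × Fin 3 → Fin n))
  have h3 : (univ : Finset (Fin (n + 1) × Fin 3 → Fin n)) ⊆
      (univ.filter fun T : Fin (n + 1) × Fin 3 → Fin n => ¬ (Base T w ∧ ∀ q ∈ Q,
        ∀ S : Finset (Fin (n + 1)), w < S.card → S.card ≤ 2 * w → rowT T S ≠ q)) ∪
      (univ.filter fun T : Fin (n + 1) × Fin 3 → Fin n => ¬ (Base T t ∧
        ∀ q ∈ (∅ : Finset (Fin n → ZMod 2)),
        ∀ S : Finset (Fin (n + 1)), t < S.card → S.card ≤ 2 * t → rowT T S ≠ q)) := by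
    intro T _
    rw [Finset.mem_union, Finset.mem_filter, Finset.mem_filter]
    by_contra hn'
    rw [not_or] at hn'
    have h4 : Base T w ∧ ∀ q ∈ Q, ∀ S : Finset (Fin (n + 1)), w < S.card → S.card ≤ 2 * w →
        rowT T S ≠ q := by
      by_contra h
      exact hn'.1 ⟨Finset.mem_univ _, h⟩
    have h5 : Base T t ∧ ∀ q ∈ (∅ : Finset (Fin n → ZMod 2)),
        ∀ S : Finset (Fin (n + 1)), t < S.card → S.card ≤ 2 * t → rowT T S ≠ q := by
      by_contra h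
      exact hn'.2 ⟨Finset.mem_univ _, h⟩
    obtain ⟨S, hS1, hS2, hS3⟩ := hcon T h4.1 h4.2
    exact h5.1.low S hS1 hS2 hS3
  have h4 := (Finset.card_le_card h3).trans (Finset.card_union_le _ _)
  rw [Finset.card_univ] at h4
  have h5 : M ≤ ((univ.filter fun T : Fin (n + 1) × Fin 3 → Fin n => ¬ (Base T w ∧ ∀ q ∈ Q,
        ∀ S : Finset (Fin (n + 1)), w < S.card → S.card ≤ 2 * w → rowT T S ≠ q)).card : ℝ) +
      ((univ.filter fun T : Fin (n + 1) × Fin 3 → Fin n => ¬ (Base T t ∧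
        ∀ q ∈ (∅ : Finset (Fin n → ZMod 2)),
        ∀ S : Finset (Fin (n + 1)), t < S.card → S.card ≤ 2 * t → rowT T S ≠ q)).card : ℝ) := by
    rw [hM]
    exact_mod_cast h4
  have hQ' : ((Q.card : ℝ) + 1) ≤ 4 ^ w := by exact_mod_cast hQ
  have h6 : ((Q.card : ℝ) + 1) * (2 * ((1 / 10) ^ (w + 1) / (1 - 1 / 10))) ≤ 1 / 10 := by
    have e1 : ((1 : ℝ) / 10) ^ (w + 1) = (1 / 10) ^ w * (1 / 10) := pow_succ _ _
    have e2 : (0 : ℝ) < (1 / 10) ^ w := by positivity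
    calc ((Q.card : ℝ) + 1) * (2 * ((1 / 10) ^ (w + 1) / (1 - 1 / 10)))
        ≤ 4 ^ w * (2 * ((1 / 10) ^ (w + 1) / (1 - 1 / 10))) :=
          mul_le_mul_of_nonneg_right hQ' (by positivity)
      _ = (2 / 9) * (4 ^ w * (1 / 10) ^ w) := by rw [e1]; ring
      _ = (2 / 9) * (2 / 5) ^ w := by rw [← mul_pow]; norm_num
      _ ≤ (2 / 9) * (2 / 5) ^ 1 := by
          refine mul_le_mul_of_nonneg_left ?_ (by norm_num)
          exact pow_le_pow_of_le_one (by norm_num) (by norm_num) hw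
      _ ≤ 1 / 10 := by norm_num
  have h7 : (2 : ℝ) * ((1 / 10) ^ (t + 1) / (1 - 1 / 10)) ≤ 1 / 10 := by
    have e1 : ((1 : ℝ) / 10) ^ (t + 1) ≤ (1 / 10) ^ 2 :=
      pow_le_pow_of_le_one (by norm_num) (by norm_num) (by omega)
    calc (2 : ℝ) * ((1 / 10) ^ (t + 1) / (1 - 1 / 10)) = (20 / 9) * (1 / 10) ^ (t + 1) := by ring
      _ ≤ (20 / 9) * (1 / 10) ^ 2 := mul_le_mul_of_nonneg_left e1 (by norm_num)
      _ ≤ 1 / 10 := by norm_num
  have h8 : (2 : ℝ) * ((1 / 10) ^ (0 + 1) / (1 - 1 / 10)) = 2 / 9 := by norm_num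
  rw [h8] at h1 h2
  rw [Finset.card_empty, Nat.cast_zero, zero_add, one_mul] at h2
  have h9 : (((Q.card : ℝ) + 1) * (2 * ((1 / 10) ^ (w + 1) / (1 - 1 / 10))) + 2 / 9) * M ≤
      (1 / 10 + 2 / 9) * M := mul_le_mul_of_nonneg_right (by linarith) hM0.le
  have h10 : ((2 : ℝ) * ((1 / 10) ^ (t + 1) / (1 - 1 / 10)) + 2 / 9) * M ≤
      (1 / 10 + 2 / 9) * M := mul_le_mul_of_nonneg_right (by linarith) hM0.le
  have h11 : M ≤ (1 / 10 + 2 / 9) * M + (1 / 10 + 2 / 9) * M :=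
    h5.trans (add_le_add (h1.trans h9) (h2.trans h10))
  nlinarith

/-- **Deciding 3-SAT with a sparse oracle.** -/
theorem sparse_bound {X : Type} {n r s w l : ℕ} {ι : Fin n → X} (hι : Function.Injective ι)
    (E : Ext ι) (F : OProc (Clause 3 X) (Fin n) (act 3 E) r)
    (S : ∀ i, Finset (F.O i → Bool)) (hs : ∀ i, (S i).card ≤ s) (hc : F.cost < 2 ^ w)
    (hw : 1 ≤ w) (hrs : r * s ≤ 2 ^ l)
    (hdec : ∀ Φ ∈ Small 3 X (4 * (n + 1)), F.acc S (ind Φ) = true ↔ Sat Φ) :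
    n < 8000 * (w * (l + 1) * (l * r + 1)) := by
  classical
  by_contra hcon
  rw [not_lt] at hcon
  set t := w * (l + 1) * (l * r + 1) with ht
  have hwt : w ≤ t := by
    rw [ht, mul_assoc]
    exact Nat.le_mul_of_pos_right _ (Nat.mul_pos (Nat.succ_pos _) (Nat.succ_pos _))
  have hQ : (avoid F).card + 1 ≤ 4 ^ w := by
    refine (card_avoid F).trans ?_
    have h1 : (F.cost + 1) ^ 2 ≤ (2 ^ w) ^ 2 := Nat.pow_le_pow_left hc 2
    have h2 : (2 ^ w) ^ 2 = 4 ^ w := by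
      rw [← pow_mul, mul_comm, pow_mul]
      norm_num
    rw [← h2]
    exact h1
  obtain ⟨T, hB, hav, hT⟩ := exists_T n w t hw hwt hcon (avoid F) hQ
  obtain ⟨b, b', h1, h2, h3⟩ := not_decides hι E F S hs hrs T w hw hB
    (by rw [Fintype.card_fin]; exact Nat.lt_succ_self n) hav hT (le_of_eq (by rw [ht]; ring))
  have h4 : ∀ b, Phi ι T b ∈ Small 3 X (4 * (n + 1)) := fun b =>
    phi_card (by norm_num) T b
  have h5 := (hdec _ (h4 b)).2 h1
  rw [h3] at h5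
  exact h2 ((hdec _ (h4 b')).1 h5)

/-- **Polynomial parameters.** -/
theorem sparse_poly {X : Type} {n r c : ℕ} {ι : Fin n → X} (hι : Function.Injective ι)
    (E : Ext ι) (F : OProc (Clause 3 X) (Fin n) (act 3 E) r)
    (S : ∀ i, Finset (F.O i → Bool)) (hs : ∀ i, (S i).card ≤ n ^ c) (hc : F.cost ≤ n ^ c)
    (hdec : ∀ Φ ∈ Small 3 X (4 * (n + 1)), F.acc S (ind Φ) = true ↔ Sat Φ) :
    n ≤ 8000 * (c + 2) ^ 3 * (Nat.log 2 n + 1) ^ 3 * (r + 1) := by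
  set L := Nat.log 2 n + 1 with hL
  have hn : n < 2 ^ L := Nat.lt_pow_succ_log_self (by norm_num) n
  have hL1 : 1 ≤ L := Nat.succ_pos _
  have hpow : n ^ c ≤ 2 ^ (c * L) := by
    calc n ^ c ≤ (2 ^ L) ^ c := Nat.pow_le_pow_left hn.le c
      _ = 2 ^ (c * L) := by rw [← pow_mul, mul_comm]
  rcases le_or_gt n r with hr | hr
  · calc n ≤ r + 1 := by omega
      _ ≤ 8000 * (c + 2) ^ 3 * L ^ 3 * (r + 1) :=
          Nat.le_mul_of_pos_left _ (by positivity)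
  · have h1 := sparse_bound (w := c * L + 1) (l := (c + 1) * L) hι E F S hs
      (lt_of_le_of_lt (hc.trans hpow) (Nat.pow_lt_pow_right (by norm_num) (Nat.lt_succ_self _)))
      (Nat.succ_pos _) (by
        calc r * n ^ c ≤ 2 ^ L * 2 ^ (c * L) := Nat.mul_le_mul (hr.le.trans hn.le) hpow
          _ = 2 ^ ((c + 1) * L) := by rw [← pow_add]; congr 1; ring) hdec
    refine h1.le.trans ?_
    have h2 : c * L + 1 ≤ (c + 2) * L := by nlinarith
    have h3 : (c + 1) * L + 1 ≤ (c + 2) * L := by nlinarith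
    have h4 : (c + 1) * L * r + 1 ≤ (c + 2) * L * (r + 1) := by nlinarith
    calc 8000 * ((c * L + 1) * ((c + 1) * L + 1) * ((c + 1) * L * r + 1))
        ≤ 8000 * (((c + 2) * L) * ((c + 2) * L) * ((c + 2) * L * (r + 1))) :=
          Nat.mul_le_mul_left _ (Nat.mul_le_mul (Nat.mul_le_mul h2 h3) h4)
      _ = 8000 * (c + 2) ^ 3 * L ^ 3 * (r + 1) := by ring

end Pool.Agent.H550R2.SP
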