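import Pool.Agent.H550R2.SP.Main
import Pool.Agent.H550R2.SP.Defs

set_option autoImplicit false
set_option linter.unusedSectionVars false

/-! Oracle procedures for 3-SAT are abstract procedures. -/

namespace Pool.Agent.H550R2.SP

open Finset Module Pool.Agent.H550R2.Lift Pool.Agent.H550R2.Lin Pool.Agent.H550R2.WH
open Pool.Agent.H550R2.Neg (rowT pr_rowT act idE)
open Pool.Agent.H550R2.Neg (act_add)
open Pool.Agent.H30R2.NS (A A_apply pp pp_nonneg Clause Phi Ext neg neg_apply neg_add Sat Satisfies
  Small phi_card phi_sat_iff exists_unsat)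

section words

variable {V O : Type} [Fintype V] [DecidableEq V]

/-- the action on words -/
def actW (ρ : Multiplicative (V → ZMod 2) →* Equiv.Perm O) :
    Multiplicative (V → ZMod 2) →* Equiv.Perm (O → Bool) where
  toFun g := Equiv.arrowCongr (ρ g) (Equiv.refl Bool)
  map_one' := by
    apply Equiv.ext
    intro x
    funext o
    show x ((ρ 1).symm o) = x o
    rw [map_one]
    rfl
  map_mul' := fun g h => by
    apply Equiv.ext
    intro x
    funext o
    show x ((ρ (g * h)).symm o) = x ((ρ h).symm ((ρ g).symm o))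
    rw [map_mul]
    rfl

theorem actW_apply (ρ : Multiplicative (V → ZMod 2) →* Equiv.Perm O) (g) (x : O → Bool) (o : O) :
    actW ρ g x o = x ((ρ g).symm o) := rfl

end words

section cols

variable {V X : Type} [Fintype V] [DecidableEq V] {k m r : ℕ} {ι : V → X}

/-- the combination of the rows -/
def col1 (T : Fin m × Fin k → V) : (Fin m → ZMod 2) →+ (V → ZMod 2) where
  toFun x := fun v => ∑ j, x j * A T (Pi.single v 1) j
  map_zero' := by
    funext v
    exact Finset.sum_eq_zero fun j _ => by rw [Pi.zero_apply, zero_mul]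
  map_add' := fun x y => by
    funext v
    show ∑ j, (x + y) j * A T (Pi.single v 1) j =
      ∑ j, x j * A T (Pi.single v 1) j + ∑ j, y j * A T (Pi.single v 1) j
    rw [← Finset.sum_add_distrib]
    apply Finset.sum_congr rfl
    intro j _
    rw [Pi.add_apply, add_mul]

theorem col1_apply (T : Fin m × Fin k → V) (x : Fin m → ZMod 2) :
    col1 T x = rowT T (sp x) := by
  funext v
  exact sum_sp x _

theorem pr_col1 (T : Fin m × Fin k → V) (x : Fin m → ZMod 2) (y : V → ZMod 2) :
    pr (col1 T x) y = pr x (A T y) := by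
  rw [col1_apply, pr_rowT]
  exact (sum_sp x _).symm

theorem inp_shift (E : Ext ι) (T : Fin m × Fin k → V) (b : Fin m → ZMod 2) (a : Fin r → Bool)
    (y : V → ZMod 2) :
    (fun z => inp (ind (Phi ι T b)) a ((exA (act k E) r y).symm z)) =
      inp (ind (Phi ι T (b + A T y))) a := by
  funext z
  rcases z with c | i
  · exact phi_shift E T b y c
  · rfl

/-- **Two systems with the same answers are linked.** -/
theorem phi_linked (hι : Function.Injective ι) (E : Ext ι) {T : Fin m × Fin k → V} (a : Fin r → Bool) (b0 β : Fin m → ZMod 2) {w : ℕ}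
    (hw : 1 ≤ w) (hB : Base T w) :
    Linked (exA (act k E) r) (col1 T) (uB β) wS w (inp (ind (Phi ι T b0)) a)
      (inp (ind (Phi ι T (b0 + β))) a) := by
  classical
  refine ⟨?_⟩
  rintro (c | q)
  · obtain ⟨α, γ, S, hS, hv⟩ := phi_val hι hw hB c
    have key : ∀ (d : Fin m → ZMod 2) (y : V → ZMod 2),
        inp (ind (Phi ι T d)) a ((exA (act k E) r y).symm (Sum.inl c)) =
          α + γ * sg (∑ j ∈ S, (d + A T y) j) := by
      intro d y
      have h1 := congrFun (inp_shift E T d a y) (Sum.inl c)
      rw [h1]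
      exact hv _
    refine ⟨Bool, inferInstance, fun s => if s = true then γ * sg (∑ j ∈ S, b0 j) else α,
      fun s => if s = true then one S else 0, ?_, ?_, ?_⟩
    · intro ν
      cases ν
      · show wS (0 : Fin m → ZMod 2) ≤ w
        rw [wS_zero]
        exact Nat.zero_le _
      · show (sp (one S)).card ≤ w
        rw [sp_one]
        exact hS.trans hw
    · intro y
      rw [key, Fintype.sum_bool]
      show _ = γ * sg (∑ j ∈ S, b0 j) * sg (pr (col1 T (one S)) y) + α * sg (pr (col1 T 0) y)
      rw [map_zero, pr_zero_left, sg_zero, pr_col1]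
      have h1 : pr (one S) (A T y) = ∑ j ∈ S, A T y j := by
        have h2 := sum_sp (one S) (A T y)
        rw [sp_one] at h2
        exact h2
      have h3 : ∑ j ∈ S, (b0 + A T y) j = ∑ j ∈ S, b0 j + ∑ j ∈ S, A T y j := by
        rw [← Finset.sum_add_distrib]
        rfl
      rw [h1, h3, sg_add]
      ring
    · intro y
      rw [key, Fintype.sum_bool]
      show _ = γ * sg (∑ j ∈ S, b0 j) * sg (uB β (one S)) * sg (pr (col1 T (one S)) y) +
        α * sg (uB β 0) * sg (pr (col1 T 0) y)
      rw [map_zero, map_zero, pr_zero_left, sg_zero, pr_col1, uB_apply, sp_one]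
      have h1 : pr (one S) (A T y) = ∑ j ∈ S, A T y j := by
        have h2 := sum_sp (one S) (A T y)
        rw [sp_one] at h2
        exact h2
      have h3 : ∑ j ∈ S, (b0 + β + A T y) j =
          ∑ j ∈ S, b0 j + ∑ j ∈ S, β j + ∑ j ∈ S, A T y j := by
        rw [← Finset.sum_add_distrib, ← Finset.sum_add_distrib]
        rfl
      rw [h1, h3, sg_add, sg_add]
      ring
  · refine ⟨Unit, inferInstance, fun _ => if a q = true then 1 else 0, fun _ => 0, ?_, ?_, ?_⟩
    · intro _
      rw [wS_zero]
      exact Nat.zero_le _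
    · intro y
      rw [Fintype.sum_unique, map_zero, pr_zero_left, sg_zero, mul_one]
      rfl
    · intro y
      rw [Fintype.sum_unique, map_zero, map_zero, pr_zero_left, sg_zero, mul_one, mul_one]
      rfl

theorem exA_add {I : Type} {A : (V → ZMod 2) → Equiv.Perm I}
    (hA : ∀ γ γ', A (γ + γ') = A γ * A γ') (γ γ' : V → ZMod 2) :
    exA A r (γ + γ') = exA A r γ * exA A r γ' := by
  apply Equiv.ext
  rintro (c | q)
  · show Sum.inl (A (γ + γ') c) = Sum.inl (A γ (A γ' c))
    rw [hA]
    rfl
  · rfl

end cols

end Pool.Agent.H550R2.SP
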