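import Pool.Agent.H550R2.SP.Defs3
import Pool.Agent.H550R2.SP.Num

set_option autoImplicit false
set_option linter.unusedSectionVars false

/-! Threshold reductions. -/

namespace Pool.Agent.H550R2.SP

open Finset Module Pool.Agent.H550R2.Lift Pool.Agent.H550R2.Lin Pool.Agent.H550R2.WH
open Pool.Agent.H550R2.Neg (rowT pr_rowT act idE)
open Pool.Agent.H550R2.Neg (act_add)
open Pool.Agent.H30R2.NS (A A_apply pp pp_nonneg Clause Phi Ext neg neg_apply neg_add Sat Satisfies
  Small phi_card phi_sat_iff exists_unsat)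

section count

variable {V X : Type} [Fintype V] [DecidableEq V]

open Classical in
/-- the number of translations that move the word into the set -/
noncomputable def hits (ρ : Multiplicative (V → ZMod 2) →* Equiv.Perm X) (S : Finset X) (z : X) : ℕ :=
  (univ.filter fun g : V → ZMod 2 => ρ (Multiplicative.ofAdd g) z ∈ S).card

theorem hits_shift (ρ : Multiplicative (V → ZMod 2) →* Equiv.Perm X) (S : Finset X) (z : X)
    (h : V → ZMod 2) : hits ρ S (ρ (Multiplicative.ofAdd h) z) = hits ρ S z := by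
  classical
  unfold hits
  apply Finset.card_bij (fun g _ => g + h)
  · intro g hg
    rw [Finset.mem_filter] at hg ⊢
    refine ⟨Finset.mem_univ _, ?_⟩
    rw [ofAdd_add, map_mul, Equiv.Perm.mul_apply]
    exact hg.2
  · intro g _ g' _ h'
    exact add_right_cancel h'
  · intro g hg
    rw [Finset.mem_filter] at hg
    refine ⟨g - h, Finset.mem_filter.2 ⟨Finset.mem_univ _, ?_⟩, sub_add_cancel g h⟩
    rw [← Equiv.Perm.mul_apply, ← map_mul, ← ofAdd_add, sub_add_cancel]
    exact hg.2

theorem hits_le (ρ : Multiplicative (V → ZMod 2) →* Equiv.Perm X) (S : Finset X) (z : X) {s L : ℕ}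
    (hs : S.card ≤ s) (hz : finrank (ZMod 2) (St ρ z) + L < Fintype.card V) :
    hits ρ S z * 2 ^ (L + 1) ≤ s * 2 ^ Fintype.card V := by
  classical
  have hfib : ∀ y : X, (univ.filter fun h : V → ZMod 2 => ρ (Multiplicative.ofAdd h) z = y).card ≤
      2 ^ finrank (ZMod 2) (St ρ z) := by
    intro y
    rcases Finset.eq_empty_or_nonempty
      (univ.filter fun h : V → ZMod 2 => ρ (Multiplicative.ofAdd h) z = y) with h0 | ⟨h0, hh0⟩
    · rw [h0, Finset.card_empty]
      exact Nat.zero_le _
    · rw [← card_filter_mem]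
      rw [Finset.mem_filter] at hh0
      apply Finset.card_le_card_of_injOn (fun h => h - h0)
      · intro h hh
        have hh' := Finset.mem_filter.1 (Finset.mem_coe.1 hh)
        refine Finset.mem_coe.2 (Finset.mem_filter.2 ⟨Finset.mem_univ _, ?_⟩)
        show h - h0 ∈ St ρ z
        rw [mem_St, ← neg_add_eq_sub, ofAdd_add, map_mul, Equiv.Perm.mul_apply, hh'.2, ← hh0.2,
          ofAdd_neg, map_inv]
        exact Equiv.symm_apply_apply _ _
      · intro h _ h' _ he
        exact sub_left_injective he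
  have hsub : (univ.filter fun g : V → ZMod 2 => ρ (Multiplicative.ofAdd g) z ∈ S) ⊆
      S.biUnion fun y => univ.filter fun h : V → ZMod 2 => ρ (Multiplicative.ofAdd h) z = y := by
    intro g hg
    rw [Finset.mem_biUnion]
    exact ⟨_, (Finset.mem_filter.1 hg).2, Finset.mem_filter.2 ⟨Finset.mem_univ _, rfl⟩⟩
  have h1 : hits ρ S z ≤ s * 2 ^ finrank (ZMod 2) (St ρ z) := by
    refine (Finset.card_le_card hsub).trans (Finset.card_biUnion_le.trans ?_)
    refine (Finset.sum_le_sum fun y _ => hfib y).trans ?_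
    rw [Finset.sum_const, smul_eq_mul]
    exact Nat.mul_le_mul_right _ hs
  calc hits ρ S z * 2 ^ (L + 1) ≤ s * 2 ^ finrank (ZMod 2) (St ρ z) * 2 ^ (L + 1) :=
        Nat.mul_le_mul_right _ h1
    _ = s * 2 ^ (finrank (ZMod 2) (St ρ z) + L + 1) := by
        rw [mul_assoc, ← pow_add, add_assoc]
    _ ≤ s * 2 ^ Fintype.card V :=
        Nat.mul_le_mul_left _ (Nat.pow_le_pow_right (by norm_num) hz)

theorem hits_le_pow (ρ : Multiplicative (V → ZMod 2) →* Equiv.Perm X) (S : Finset X) (z : X) :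
    hits ρ S z ≤ 2 ^ Fintype.card V := by
  classical
  unfold hits
  refine (Finset.card_le_univ _).trans ?_
  rw [Fintype.card_fun, ZMod.card]

end count

theorem abs_sub_mul_le {a b c d : ℕ} (ha : a * c ≤ d) (hb : b * c ≤ d) :
    |(a : ℝ) - b| * (c : ℕ) ≤ d := by
  have ha' : (a : ℝ) * c ≤ d := by exact_mod_cast ha
  have hb' : (b : ℝ) * c ≤ d := by exact_mod_cast hb
  have h0 : (0 : ℝ) ≤ (a : ℝ) * c := by positivity
  have h1 : (0 : ℝ) ≤ (b : ℝ) * c := by positivity
  rcases le_total (a : ℝ) b with h | h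
  · rw [abs_of_nonpos (by linarith)]
    linarith
  · rw [abs_of_nonneg (by linarith)]
    linarith

section orbit

variable {V X : Type} [Fintype V] [DecidableEq V] {m : ℕ}
  {D : (V → ZMod 2) →ₗ[ZMod 2] (Fin m → ZMod 2)} {w L t s : ℕ}

/-- **The two orbits coincide or are both large.** -/
theorem hits_close (ρ : Multiplicative (V → ZMod 2) →* Equiv.Perm X)
    (W : (Fin m → ZMod 2) → X) (hW : ∀ b g, W (b + D g) = ρ (Multiplicative.ofAdd g) (W b))
    (hfix : ∀ b (H : Submodule (ZMod 2) (V → ZMod 2)) β, H ≤ St ρ (W b) →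
      (∀ x ∈ gens D w H, pr x β = 0) → W (b + β) = W b) (S : Finset X) (hs : S.card ≤ s)
    (hB : ∀ x, wS x ≤ t → (∀ g, pr x (D g) = 0) → x = 0)
    (ht : (L + 1) * w ≤ t) (bu : Fin m → ZMod 2) :
    |(hits ρ S (W 0) : ℝ) - hits ρ S (W bu)| * (2 ^ (L + 1) : ℕ) ≤ (s * 2 ^ Fintype.card V : ℕ) := by
  have hbu : ∀ H : Submodule (ZMod 2) (V → ZMod 2), cd H ≤ L →
      ∃ g, ∀ x ∈ gens D w H, pr x (bu + D g) = 0 := by
    intro H hH
    have h1 := (inj_U D w hB H (le_trans (Nat.mul_le_mul_right _ (by omega)) ht)).2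
    obtain ⟨g, -, hg⟩ := exists_h D (UU D w H) ⊤ bu (fun x hx => by
      rw [h1 x hx.1 (fun g => hx.2 g trivial)]
      exact pr_zero_left _)
    refine ⟨g, fun x hx => ?_⟩
    rw [pr_add_right, hg x (Submodule.subset_span hx)]
    exact CharTwo.add_self_eq_zero _
  by_cases h0 : finrank (ZMod 2) (St ρ (W 0)) + L < Fintype.card V
  · by_cases h1 : finrank (ZMod 2) (St ρ (W bu)) + L < Fintype.card V
    · have e0 := hits_le ρ S (W 0) hs h0
      have e1 := hits_le ρ S (W bu) hs h1
      exact abs_sub_mul_le e0 e1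
    · have h2 : cd (St ρ (W bu)) ≤ L := by
        have := cd_add (St ρ (W bu))
        omega
      obtain ⟨g, hg⟩ := hbu _ h2
      have h3 := hfix bu _ (bu + D g) le_rfl hg
      have h4 : bu + (bu + D g) = 0 + D g := by
        rw [← add_assoc, add_self_fin]
      rw [h4, hW] at h3
      rw [← h3, hits_shift, sub_self, abs_zero, zero_mul]
      positivity
  · have h2 : cd (St ρ (W 0)) ≤ L := by
      have := cd_add (St ρ (W 0))
      omega
    obtain ⟨g, hg⟩ := hbu _ h2
    have h3 := hfix 0 _ (bu + D g) le_rfl hg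
    rw [zero_add, hW] at h3
    rw [← h3, hits_shift, sub_self, abs_zero, zero_mul]
    positivity

end orbit

end Pool.Agent.H550R2.SP
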