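import Pool.Agent.H550R2.SP.Thr
import Pool.Agent.H550R2.SP.Num

set_option autoImplicit false
set_option linter.unusedSectionVars false

/-! Threshold reductions of 3-SAT. -/

namespace Pool.Agent.H550R2.SP

open Finset Module Pool.Agent.H550R2.Lift Pool.Agent.H550R2.Lin Pool.Agent.H550R2.WH
open Pool.Agent.H550R2.Neg (rowT pr_rowT act idE count_row)
open Pool.Agent.H550R2.Neg (act_add)
open Pool.Agent.H30R2.NS (A A_apply pp pp_nonneg Clause Phi Ext neg neg_apply neg_add Sat Satisfies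
  Small phi_card phi_sat_iff exists_unsat three_q)

section proc

variable {V X O : Type} [Fintype V] [DecidableEq V] [Fintype O] {k m : ℕ} {ι : V → X} (E : Ext ι)

theorem act_shift (T : Fin m × Fin k → V) (b : Fin m → ZMod 2) (y : V → ZMod 2) :
    (fun z => ind (Phi ι T b) ((act k E y).symm z)) = ind (Phi ι T (b + A T y)) :=
  funext fun c => phi_shift E T b y c

/-- **Two systems are linked.** -/
theorem phi_linked3 (hι : Function.Injective ι) (E : Ext ι) {T : Fin m × Fin k → V}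
    (b0 β : Fin m → ZMod 2) {w : ℕ} (hw : 1 ≤ w) (hB : Base T w) :
    Linked (act k E) (col1 T) (uB β) wS w (ind (Phi ι T b0)) (ind (Phi ι T (b0 + β))) := by
  classical
  refine ⟨?_⟩
  intro c
  obtain ⟨α, γ, S, hS, hv⟩ := phi_val hι hw hB c
  have key : ∀ (d : Fin m → ZMod 2) (y : V → ZMod 2),
      ind (Phi ι T d) ((act k E y).symm c) = α + γ * sg (∑ j ∈ S, (d + A T y) j) := by
    intro d y
    have h1 := congrFun (act_shift E T d y) c
    rw [h1]
    exact hv _
  refine ⟨Bool, inferInstance, fun s => if s = true then γ * sg (∑ j ∈ S, b0 j) else α,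
    fun s => if s = true then one S else 0, ?_, ?_, ?_⟩
  · intro ν
    cases ν
    · show wS (0 : Fin m → ZMod 2) ≤ w
      rw [wS_zero]
      exact Nat.zero_le _
    · show (sp (one S)).card ≤ w
      rw [sp_one]
      exact hS.trans hw
  · intro y
    rw [key, Fintype.sum_bool]
    show _ = γ * sg (∑ j ∈ S, b0 j) * sg (pr (col1 T (one S)) y) + α * sg (pr (col1 T 0) y)
    rw [map_zero, pr_zero_left, sg_zero, pr_col1]
    have h1 : pr (one S) (A T y) = ∑ j ∈ S, A T y j := by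
      have h2 := sum_sp (one S) (A T y)
      rw [sp_one] at h2
      exact h2
    have h3 : ∑ j ∈ S, (b0 + A T y) j = ∑ j ∈ S, b0 j + ∑ j ∈ S, A T y j := by
      rw [← Finset.sum_add_distrib]
      rfl
    rw [h1, h3, sg_add]
    ring
  · intro y
    rw [key, Fintype.sum_bool]
    show _ = γ * sg (∑ j ∈ S, b0 j) * sg (uB β (one S)) * sg (pr (col1 T (one S)) y) +
      α * sg (uB β 0) * sg (pr (col1 T 0) y)
    rw [map_zero, map_zero, pr_zero_left, sg_zero, pr_col1, uB_apply, sp_one]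
    have h1 : pr (one S) (A T y) = ∑ j ∈ S, A T y j := by
      have h2 := sum_sp (one S) (A T y)
      rw [sp_one] at h2
      exact h2
    have h3 : ∑ j ∈ S, (b0 + β + A T y) j =
        ∑ j ∈ S, b0 j + ∑ j ∈ S, β j + ∑ j ∈ S, A T y j := by
      rw [← Finset.sum_add_distrib, ← Finset.sum_add_distrib]
      rfl
    rw [h1, h3, sg_add, sg_add]
    ring

theorem word_shift3 (F : Red (Clause k X) O V (act k E))
    (equi : ∀ (x : Set (Clause k X)) y o, F.out (fun z => ind x ((act k E y).symm z))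
      (F.ρ (Multiplicative.ofAdd y) o) = F.out (ind x) o)
    (T : Fin m × Fin k → V) (b : Fin m → ZMod 2) (g : V → ZMod 2) :
    F.out (ind (Phi ι T (b + A T g))) =
      actW F.ρ (Multiplicative.ofAdd g) (F.out (ind (Phi ι T b))) := by
  funext o
  have h := equi (Phi ι T b) g ((F.ρ (Multiplicative.ofAdd g)).symm o)
  rw [Equiv.apply_symm_apply, act_shift] at h
  exact h

theorem word_fix3 (hι : Function.Injective ι) (F : Red (Clause k X) O V (act k E))
    (equi : ∀ (x : Set (Clause k X)) y o, F.out (fun z => ind x ((act k E y).symm z))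
      (F.ρ (Multiplicative.ofAdd y) o) = F.out (ind x) o)
    (T : Fin m × Fin k → V) {w : ℕ} (hw : 1 ≤ w) (hB : Base T w)
    (h1 : ∀ q ∈ F.rev, ∀ S : Finset (Fin m), w < S.card → S.card ≤ 2 * w → rowT T S ≠ q)
    (h2 : ∀ q ∈ F.allC, ∀ S : Finset (Fin m), w < S.card → S.card ≤ 2 * w → rowT T S ≠ q)
    (b : Fin m → ZMod 2) (H : Submodule (ZMod 2) (V → ZMod 2))
    (β : Fin m → ZMod 2) (hH : H ≤ St (actW F.ρ) (F.out (ind (Phi ι T b))))
    (hβ : ∀ x ∈ gens (A T) w H, pr x β = 0) :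
    F.out (ind (Phi ι T (b + β))) = F.out (ind (Phi ι T b)) := by
  classical
  funext o
  have hgap : ∀ x : Fin m → ZMod 2, wS x ≤ 2 * w → Perp (stab F.ρ o) (col1 T x) → wS x ≤ w := by
    intro x hx hp
    by_contra hlt
    rw [not_le] at hlt
    exact h1 _ (F.mem_rev hp) (sp x) hlt hx (col1_apply T x).symm
  let R : Submodule (ZMod 2) (Fin m → ZMod 2) :=
    { carrier := {x | wS x ≤ w ∧ Perp (stab F.ρ o) (col1 T x)}
      zero_mem' := by
        refine ⟨by rw [wS_zero]; exact Nat.zero_le _, fun γ _ => ?_⟩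
        rw [map_zero, pr_zero_left]
      add_mem' := by
        rintro x y ⟨hx, hx'⟩ ⟨hy, hy'⟩
        have h3 : Perp (stab F.ρ o) (col1 T (x + y)) := by
          intro γ hγ
          rw [map_add, pr_add_left, hx' γ hγ, hy' γ hγ, add_zero]
        refine ⟨hgap _ ?_ h3, h3⟩
        have := wS_add x y
        omega
      smul_mem' := by
        rintro c x ⟨hx, hx'⟩
        rcases zmod2_cases c with hc | hc
        · rw [hc, zero_smul]
          refine ⟨by rw [wS_zero]; exact Nat.zero_le _, fun γ _ => ?_⟩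
          rw [map_zero, pr_zero_left]
        · rw [hc, one_smul]
          exact ⟨hx, hx'⟩ }
  obtain ⟨h, hh, hR⟩ := exists_h (A T) R H β (fun x hx => hβ x ⟨hx.1.1, hx.2⟩)
  have hrun : (F.alg o).run (ind (Phi ι T (b + A T h))) =
      (F.alg o).run (ind (Phi ι T (b + A T h + (β + A T h)))) := by
    refine (F.alg o).run_eqH (act_add E) (stab F.ρ o) wS_add wS_zero ?_
      (phi_linked3 hι E (b + A T h) (β + A T h) hw hB) (fun y hy => F.sym o y hy) ?_
    · intro x hx hp
      have h3 : x ∈ R := ⟨hgap x hx hp, hp⟩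
      show pr x (β + A T h) = 0
      rw [pr_add_right, hR x h3]
      exact CharTwo.add_self_eq_zero _
    · intro x hx hx' hc
      exact h2 _ (Finset.mem_biUnion.2 ⟨o, Finset.mem_univ _, hc⟩) (sp x) hx hx'
        (col1_apply T x).symm
  have h3 : b + A T h + (β + A T h) = b + β := by
    have h4 := add_self_fin (A T h)
    calc b + A T h + (β + A T h) = b + β + (A T h + A T h) := by abel
      _ = b + β := by rw [h4, add_zero]
  rw [h3] at hrun
  show (F.alg o).run _ = _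
  rw [← hrun]
  have h4 := word_shift3 E F equi T b h
  rw [(mem_St _ _ _).1 (hH hh)] at h4
  exact congrFun h4 o

end proc

section final

variable {I V : Type} [Fintype V] [DecidableEq V] {A : (V → ZMod 2) → Equiv.Perm I}

open Classical in
/-- the functionals that have to be avoided -/
noncomputable def avoid3 (F : TRed I V A) (j : F.J) : Finset (V → ZMod 2) :=
  (F.qry j).rev ∪ (F.qry j).allC

theorem card_avoid3 (F : TRed I V A) (j : F.J) : (avoid3 F j).card + 1 ≤ (F.cost j + 1) ^ 2 := by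
  classical
  have h1 : (avoid3 F j).card ≤
      Fintype.card (F.O j) + Fintype.card (F.O j) * (F.qry j).size :=
    (Finset.card_union_le _ _).trans (add_le_add (F.qry j).card_rev (F.qry j).card_allC)
  unfold TRed.cost
  set a := Fintype.card (F.O j)
  set b := (F.qry j).size
  have h2 : a * b ≤ (a + b) * (a + b) := Nat.mul_le_mul (Nat.le_add_right _ _) (Nat.le_add_left _ _)
  have h3 : (a + b + 1) ^ 2 = (a + b) * (a + b) + 2 * (a + b) + 1 := by ring
  omega

end final

section main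

variable {V X : Type} [Fintype V] [DecidableEq V] {k m : ℕ} {ι : V → X}
  (hι : Function.Injective ι) (E : Ext ι)

/-- The sum of the values on an orbit. -/
theorem sum_value (F : TRed (Clause k X) V (act k E)) (T : Fin m × Fin k → V)
    (b : Fin m → ZMod 2) :
    ∑ g : V → ZMod 2, F.value (Phi ι T (b + A T g)) =
      ∑ j, F.c j * (hits (actW (F.qry j).ρ) (F.S j) ((F.qry j).out (ind (Phi ι T b))) : ℝ) := by
  classical
  unfold TRed.value
  rw [Finset.sum_comm]
  apply Finset.sum_congr rfl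
  intro j _
  rw [← Finset.sum_filter, Finset.sum_const, nsmul_eq_mul, mul_comm]
  congr 2
  unfold hits
  congr 1
  ext g
  simp only [Finset.mem_filter, Finset.mem_univ, true_and]
  rw [word_shift3 E (F.qry j) (F.equi j) T b g]

include hι in
/-- **No threshold reduction with few strings decides the systems with a good left-hand side.** -/
theorem thr_main (F : TRed (Clause k X) V (act k E)) {s L t : ℕ} (hs : ∀ j, (F.S j).card ≤ s)
    (T : Fin m × Fin k → V) (w : ℕ) (hw : 1 ≤ w) (hB : Base T w) (hm : Fintype.card V < m)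
    (J0 : Finset F.J)
    (hav : ∀ j, j ∉ J0 → ∀ q ∈ avoid3 F j, ∀ S : Finset (Fin m), w < S.card → S.card ≤ 2 * w →
      rowT T S ≠ q)
    (hT : ∀ S : Finset (Fin m), 1 ≤ S.card → S.card ≤ t → rowT T S ≠ 0)
    (ht : (L + 1) * w ≤ t) {θ δ : ℝ}
    (hdec : ∀ b, (Sat (Phi ι T b) → θ + δ ≤ F.value (Phi ι T b)) ∧
      (¬ Sat (Phi ι T b) → F.value (Phi ι T b) ≤ θ)) :
    δ * 2 ^ (L + 1) ≤ F.weight * s + (∑ j ∈ J0, |F.c j|) * 2 ^ (L + 1) := by
  classical
  obtain ⟨bu, hbu⟩ := exists_unsat (ι := ι) hm T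
  have hsat : ∀ b, Sat (Phi ι T b) ↔ ∃ g, A T g = b := by
    intro b
    constructor
    · rintro ⟨x, hx⟩
      exact ⟨fun v => x (ι v), funext fun j => (phi_sat_iff ι T b x).1 hx j⟩
    · rintro ⟨g, rfl⟩
      refine ⟨E.ext g, (phi_sat_iff ι T _ _).2 fun j => ?_⟩
      rw [A_apply]
      exact Finset.sum_congr rfl fun l _ => E.apply g _
  have hB' : ∀ x, wS x ≤ t → (∀ g, pr x (A T g) = 0) → x = 0 := by
    intro x hx hg
    have h6 : rowT T (sp x) = 0 := by
      rw [← col1_apply]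
      funext v
      have h1 := hg (Pi.single v 1)
      rw [← pr_col1] at h1
      unfold pr at h1
      rw [Finset.sum_eq_single v (fun i _ hi => by rw [Pi.single_eq_of_ne hi, mul_zero])
        (fun h => absurd (Finset.mem_univ _) h), Pi.single_eq_same, mul_one] at h1
      exact h1
    have h7 : (sp x).card = 0 := by
      by_contra hne
      exact hT _ (Nat.one_le_iff_ne_zero.2 hne) hx h6
    funext j
    by_contra hj
    have h8 : j ∈ sp x := (mem_sp x j).2 hj
    rw [Finset.card_eq_zero.1 h7] at h8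
    exact absurd h8 (Finset.notMem_empty j)
  have hyes : ∀ g, θ + δ ≤ F.value (Phi ι T (0 + A T g)) := by
    intro g
    exact (hdec (0 + A T g)).1 ((hsat _).2 ⟨g, (zero_add _).symm⟩)
  have hno : ∀ g, F.value (Phi ι T (bu + A T g)) ≤ θ := by
    intro g
    apply (hdec (bu + A T g)).2
    intro h
    obtain ⟨g', hg'⟩ := (hsat _).1 h
    apply hbu
    refine (hsat bu).2 ⟨g' + g, ?_⟩
    rw [map_add, hg', add_assoc, add_self_fin, add_zero]
  have hcardV : ((Finset.univ : Finset (V → ZMod 2)).card : ℝ) = 2 ^ Fintype.card V := by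
    rw [Finset.card_univ, Fintype.card_fun, ZMod.card]
    push_cast
    rfl
  have hsum1 : (2 : ℝ) ^ Fintype.card V * (θ + δ) ≤
      ∑ g : V → ZMod 2, F.value (Phi ι T (0 + A T g)) := by
    have h1 : ∑ _g : V → ZMod 2, (θ + δ) = 2 ^ Fintype.card V * (θ + δ) := by
      rw [Finset.sum_const, nsmul_eq_mul, hcardV]
    rw [← h1]
    exact Finset.sum_le_sum fun g _ => hyes g
  have hsum2 : ∑ g : V → ZMod 2, F.value (Phi ι T (bu + A T g)) ≤
      (2 : ℝ) ^ Fintype.card V * θ := by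
    have h1 : ∑ _g : V → ZMod 2, θ = 2 ^ Fintype.card V * θ := by
      rw [Finset.sum_const, nsmul_eq_mul, hcardV]
    rw [← h1]
    exact Finset.sum_le_sum fun g _ => hno g
  rw [sum_value] at hsum1 hsum2
  set f : F.J → ℝ := fun j =>
    |((hits (actW (F.qry j).ρ) (F.S j) ((F.qry j).out (ind (Phi ι T 0))) : ℕ) : ℝ) -
      (hits (actW (F.qry j).ρ) (F.S j) ((F.qry j).out (ind (Phi ι T bu))) : ℕ)| with hf
  have hcl : ∀ j, j ∉ J0 → f j * (2 ^ (L + 1) : ℕ) ≤ (s * 2 ^ Fintype.card V : ℕ) := by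
    intro j hj
    refine hits_close (D := A T) (w := w) (t := t) (actW (F.qry j).ρ)
      (fun b => (F.qry j).out (ind (Phi ι T b)))
      (fun b g => word_shift3 E (F.qry j) (F.equi j) T b g) ?_ (F.S j) (hs j) hB' ht bu
    intro b H β hH hβ
    refine word_fix3 E hι (F.qry j) (F.equi j) T hw hB ?_ ?_ b H β hH hβ
    · intro q hq
      exact hav j hj q (Finset.mem_union_left _ hq)
    · intro q hq
      exact hav j hj q (Finset.mem_union_right _ hq)
  have hbad : ∀ j, f j ≤ 2 ^ Fintype.card V := by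
    intro j
    have h1 := abs_sub_mul_le (c := 1)
      (le_of_eq_of_le (mul_one _) (hits_le_pow (actW (F.qry j).ρ) (F.S j)
        ((F.qry j).out (ind (Phi ι T 0)))))
      (le_of_eq_of_le (mul_one _) (hits_le_pow (actW (F.qry j).ρ) (F.S j)
        ((F.qry j).out (ind (Phi ι T bu)))))
    rw [Nat.cast_one, mul_one] at h1
    rw [hf]
    push_cast at h1
    exact h1
  have hall : ∀ j, |F.c j| * f j * 2 ^ (L + 1) ≤ (|F.c j| * s +
      (if j ∈ J0 then |F.c j| * 2 ^ (L + 1) else 0)) * 2 ^ Fintype.card V := by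
    intro j
    have h0 := abs_nonneg (F.c j)
    by_cases hj : j ∈ J0
    · rw [if_pos hj]
      have h1 : |F.c j| * f j * 2 ^ (L + 1) ≤ |F.c j| * 2 ^ Fintype.card V * 2 ^ (L + 1) :=
        mul_le_mul_of_nonneg_right (mul_le_mul_of_nonneg_left (hbad j) h0) (by positivity)
      have h2 : 0 ≤ |F.c j| * s * 2 ^ Fintype.card V := by positivity
      calc |F.c j| * f j * 2 ^ (L + 1) ≤ |F.c j| * 2 ^ Fintype.card V * 2 ^ (L + 1) := h1
        _ ≤ |F.c j| * s * 2 ^ Fintype.card V + |F.c j| * 2 ^ Fintype.card V * 2 ^ (L + 1) := by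
            linarith
        _ = _ := by ring
    · rw [if_neg hj, add_zero]
      have h1 := hcl j hj
      push_cast at h1
      calc |F.c j| * f j * 2 ^ (L + 1) = |F.c j| * (f j * 2 ^ (L + 1)) := by ring
        _ ≤ |F.c j| * (s * 2 ^ Fintype.card V) := mul_le_mul_of_nonneg_left h1 h0
        _ = _ := by ring
  have hdiff : (2 : ℝ) ^ Fintype.card V * δ ≤ ∑ j, |F.c j| * f j := by
    have h2 : (2 : ℝ) ^ Fintype.card V * δ ≤ ∑ j, F.c j *
        (((hits (actW (F.qry j).ρ) (F.S j) ((F.qry j).out (ind (Phi ι T 0))) : ℕ) : ℝ) -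
        (hits (actW (F.qry j).ρ) (F.S j) ((F.qry j).out (ind (Phi ι T bu))) : ℕ)) := by
      simp only [mul_sub]
      rw [Finset.sum_sub_distrib]
      linarith
    refine h2.trans (Finset.sum_le_sum fun j _ => ?_)
    rw [hf]
    show _ ≤ |F.c j| * |_|
    rw [← abs_mul]
    exact le_abs_self _
  have hfin : 2 ^ Fintype.card V * (δ * 2 ^ (L + 1)) ≤
      2 ^ Fintype.card V * (F.weight * s + (∑ j ∈ J0, |F.c j|) * 2 ^ (L + 1)) := by
    calc 2 ^ Fintype.card V * (δ * 2 ^ (L + 1))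
        = (2 ^ Fintype.card V * δ) * 2 ^ (L + 1) := by ring
      _ ≤ (∑ j, |F.c j| * f j) * 2 ^ (L + 1) :=
          mul_le_mul_of_nonneg_right hdiff (by positivity)
      _ = ∑ j, |F.c j| * f j * 2 ^ (L + 1) := Finset.sum_mul _ _ _
      _ ≤ ∑ j, (|F.c j| * s + (if j ∈ J0 then |F.c j| * 2 ^ (L + 1) else 0)) *
            2 ^ Fintype.card V := Finset.sum_le_sum fun j _ => hall j
      _ = 2 ^ Fintype.card V * (F.weight * s + (∑ j ∈ J0, |F.c j|) * 2 ^ (L + 1)) := by
          rw [← Finset.sum_mul, Finset.sum_add_distrib, ← Finset.sum_mul, mul_comm]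
          congr 2
          rw [Finset.sum_mul, ← Finset.sum_filter]
          apply Finset.sum_congr _ fun _ _ => rfl
          ext j
          simp only [Finset.mem_filter, Finset.mem_univ, true_and]
  exact le_of_mul_le_mul_left hfin (by positivity)

end main

open Classical in
/-- **Good left-hand sides exist.** -/
theorem exists_T3 {J : Type} [Fintype J] (n w t : ℕ) (hw : 1 ≤ w) (hwt : w ≤ t)
    (ht : 8000 * t ≤ n) (Q : J → Finset (Fin n → ZMod 2)) (hQ : ∀ j, (Q j).card + 1 ≤ 4 ^ w)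
    (c : J → ℝ) (hc : ∀ j, 0 ≤ c j) :
    ∃ T : Fin (n + 1) × Fin 3 → Fin n, Base T w ∧
      (∀ S : Finset (Fin (n + 1)), 1 ≤ S.card → S.card ≤ t → rowT T S ≠ 0) ∧
      ∃ J0 : Finset J, (∑ j ∈ J0, c j) ≤ (∑ j, c j) * (2 / 5) ^ w ∧
        ∀ j, j ∉ J0 → ∀ q ∈ Q j, ∀ S : Finset (Fin (n + 1)), w < S.card → S.card ≤ 2 * w →
          rowT T S ≠ q := by
  have hn : 1 ≤ n := by omega
  have hV : 0 < Fintype.card (Fin n) := by rw [Fintype.card_fin]; omega
  obtain ⟨a1, a2⟩ := three_q (V := Fin n) hV (n + 1) w (ratio_le hn (by omega))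
  obtain ⟨b1, b2⟩ := three_q (V := Fin n) hV (n + 1) t (ratio_le hn ht)
  have h1 := base_bad (k := 3) (m := n + 1) (∅ : Finset (Fin n → ZMod 2)) w _ _ a1 a2
  have h2 := base_bad (k := 3) (m := n + 1) (∅ : Finset (Fin n → ZMod 2)) t _ _ b1 b2
  set M : ℝ := ((Fintype.card (Fin (n + 1) × Fin 3 → Fin n) : ℕ) : ℝ) with hM
  have hM0 : 0 < M := by
    have : Nonempty (Fin n) := ⟨⟨0, by omega⟩⟩
    rw [hM]
    exact_mod_cast (Fintype.card_pos : 0 < Fintype.card (Fin (n + 1) × Fin 3 → Fin n))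
  -- the bad queries
  let bad : (Fin (n + 1) × Fin 3 → Fin n) → Finset J := fun T => univ.filter fun j =>
    ∃ q ∈ Q j, ∃ S : Finset (Fin (n + 1)), w < S.card ∧ S.card ≤ 2 * w ∧ rowT T S = q
  have hbad : ∀ j, (((univ.filter fun T : Fin (n + 1) × Fin 3 → Fin n => j ∈ bad T).card : ℕ) : ℝ) ≤
      2 / 9 * (2 / 5) ^ w * M := by
    intro j
    set J1 : Finset (Finset (Fin (n + 1))) := univ.filter (fun S => w < S.card ∧ S.card ≤ 2 * w)
      with hJ1
    have hsub : (univ.filter fun T : Fin (n + 1) × Fin 3 → Fin n => j ∈ bad T) ⊆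
        (Q j).biUnion fun q => J1.biUnion fun S =>
          univ.filter fun T : Fin (n + 1) × Fin 3 → Fin n => rowT T S = q := by
      intro T hT
      have hT' := (Finset.mem_filter.1 (Finset.mem_filter.1 hT).2).2
      obtain ⟨q, hq, S, hS1, hS2, hS3⟩ := hT'
      rw [Finset.mem_biUnion]
      refine ⟨q, hq, ?_⟩
      rw [Finset.mem_biUnion]
      exact ⟨S, Finset.mem_filter.mpr ⟨mem_univ _, hS1, hS2⟩,
        Finset.mem_filter.mpr ⟨mem_univ _, hS3⟩⟩
    have e1 : ∑ S ∈ J1, pp (Fin n) (3 * S.card) ≤ 2 * ((1 / 10) ^ (w + 1) / (1 - 1 / 10)) := a1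
    have hQ' : ((Q j).card : ℝ) ≤ 4 ^ w := by
      have h3 : (Q j).card ≤ 4 ^ w := (Nat.le_succ _).trans (hQ j)
      exact_mod_cast h3
    calc (((univ.filter fun T : Fin (n + 1) × Fin 3 → Fin n => j ∈ bad T).card : ℕ) : ℝ)
        ≤ ∑ q ∈ Q j, ∑ S ∈ J1, ((univ.filter fun T : Fin (n + 1) × Fin 3 → Fin n =>
            rowT T S = q).card : ℝ) := by
          have h3 := (Finset.card_le_card hsub).trans (Finset.card_biUnion_le.trans
            (Finset.sum_le_sum fun q _ => Finset.card_biUnion_le))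
          exact_mod_cast h3
      _ ≤ ∑ _q ∈ Q j, ∑ S ∈ J1, pp (Fin n) (3 * S.card) * M :=
          Finset.sum_le_sum fun q _ => Finset.sum_le_sum fun S _ => count_row (k := 3) q S
      _ = (Q j).card * ((∑ S ∈ J1, pp (Fin n) (3 * S.card)) * M) := by
          rw [Finset.sum_const, nsmul_eq_mul, Finset.sum_mul]
      _ ≤ 4 ^ w * ((2 * ((1 / 10) ^ (w + 1) / (1 - 1 / 10))) * M) := by
          refine mul_le_mul hQ' (mul_le_mul_of_nonneg_right e1 hM0.le) ?_ (by positivity)
          exact mul_nonneg (Finset.sum_nonneg fun S _ => pp_nonneg _) hM0.le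
      _ = (2 / 9) * (4 ^ w * (1 / 10) ^ w) * M := by rw [pow_succ]; ring
      _ = 2 / 9 * (2 / 5) ^ w * M := by rw [← mul_pow]; norm_num
  have hC0 : 0 ≤ ∑ j, c j := Finset.sum_nonneg fun j _ => hc j
  -- the average bad weight
  have hav : ∑ T : Fin (n + 1) × Fin 3 → Fin n, ∑ j ∈ bad T, c j ≤
      (∑ j, c j) * (2 / 9 * (2 / 5) ^ w * M) := by
    calc ∑ T : Fin (n + 1) × Fin 3 → Fin n, ∑ j ∈ bad T, c j
        = ∑ T : Fin (n + 1) × Fin 3 → Fin n, ∑ j, if j ∈ bad T then c j else 0 := by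
          apply Finset.sum_congr rfl
          intro T _
          rw [← Finset.sum_filter]
          apply Finset.sum_congr _ fun _ _ => rfl
          ext j
          simp only [Finset.mem_filter, Finset.mem_univ, true_and]
      _ = ∑ j, ∑ T : Fin (n + 1) × Fin 3 → Fin n, if j ∈ bad T then c j else 0 :=
          Finset.sum_comm
      _ = ∑ j, c j * (((univ.filter fun T : Fin (n + 1) × Fin 3 → Fin n =>
            j ∈ bad T).card : ℕ) : ℝ) := by
          apply Finset.sum_congr rfl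
          intro j _
          rw [← Finset.sum_filter, Finset.sum_const, nsmul_eq_mul, mul_comm]
      _ ≤ ∑ j, c j * (2 / 9 * (2 / 5) ^ w * M) :=
          Finset.sum_le_sum fun j _ => mul_le_mul_of_nonneg_left (hbad j) (hc j)
      _ = (∑ j, c j) * (2 / 9 * (2 / 5) ^ w * M) := by rw [Finset.sum_mul]
  by_contra hcon
  push Not at hcon
  have h3 : (univ : Finset (Fin (n + 1) × Fin 3 → Fin n)) ⊆
      ((univ.filter fun T : Fin (n + 1) × Fin 3 → Fin n => ¬ (Base T w ∧
        ∀ q ∈ (∅ : Finset (Fin n → ZMod 2)),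
        ∀ S : Finset (Fin (n + 1)), w < S.card → S.card ≤ 2 * w → rowT T S ≠ q)) ∪
      (univ.filter fun T : Fin (n + 1) × Fin 3 → Fin n => ¬ (Base T t ∧
        ∀ q ∈ (∅ : Finset (Fin n → ZMod 2)),
        ∀ S : Finset (Fin (n + 1)), t < S.card → S.card ≤ 2 * t → rowT T S ≠ q))) ∪
      (univ.filter fun T : Fin (n + 1) × Fin 3 → Fin n =>
        (∑ j, c j) * (2 / 5) ^ w < ∑ j ∈ bad T, c j) := by
    intro T _
    rw [Finset.mem_union, Finset.mem_union, Finset.mem_filter, Finset.mem_filter,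
      Finset.mem_filter]
    by_contra hn'
    rw [not_or, not_or] at hn'
    have h4 : Base T w := by
      by_contra h
      exact hn'.1.1 ⟨Finset.mem_univ _, fun h' => h h'.1⟩
    have h5 : Base T t := by
      by_contra h
      exact hn'.1.2 ⟨Finset.mem_univ _, fun h' => h h'.1⟩
    have h6 : ∑ j ∈ bad T, c j ≤ (∑ j, c j) * (2 / 5) ^ w := by
      by_contra h
      exact hn'.2 ⟨Finset.mem_univ _, not_le.1 h⟩
    obtain ⟨j, hj, q, hq, S, hS1, hS2, hS3⟩ := hcon T h4 (fun S hS1 hS2 => h5.low S hS1 hS2)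
      (bad T) h6
    exact hj (Finset.mem_filter.2 ⟨Finset.mem_univ _, q, hq, S, hS1, hS2, hS3⟩)
  have h4 := (Finset.card_le_card h3).trans ((Finset.card_union_le _ _).trans
    (add_le_add (Finset.card_union_le _ _) le_rfl))
  rw [Finset.card_univ] at h4
  have h5 : M ≤ ((univ.filter fun T : Fin (n + 1) × Fin 3 → Fin n => ¬ (Base T w ∧
        ∀ q ∈ (∅ : Finset (Fin n → ZMod 2)),
        ∀ S : Finset (Fin (n + 1)), w < S.card → S.card ≤ 2 * w → rowT T S ≠ q)).card : ℝ) +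
      ((univ.filter fun T : Fin (n + 1) × Fin 3 → Fin n => ¬ (Base T t ∧
        ∀ q ∈ (∅ : Finset (Fin n → ZMod 2)),
        ∀ S : Finset (Fin (n + 1)), t < S.card → S.card ≤ 2 * t → rowT T S ≠ q)).card : ℝ) +
      ((univ.filter fun T : Fin (n + 1) × Fin 3 → Fin n =>
        (∑ j, c j) * (2 / 5) ^ w < ∑ j ∈ bad T, c j).card : ℝ) := by
    rw [hM]
    exact_mod_cast h4
  have hN : ((univ.filter fun T : Fin (n + 1) × Fin 3 → Fin n =>
      (∑ j, c j) * (2 / 5) ^ w < ∑ j ∈ bad T, c j).card : ℝ) ≤ 2 / 9 * M := by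
    rcases hC0.eq_or_lt with h0 | h0
    · rw [Finset.filter_eq_empty_iff.2]
      · rw [Finset.card_empty, Nat.cast_zero]
        positivity
      · intro T _
        rw [not_lt, ← h0, zero_mul]
        have h6 : ∑ j ∈ bad T, c j ≤ ∑ j, c j :=
          Finset.sum_le_sum_of_subset_of_nonneg (Finset.subset_univ _) fun j _ _ => hc j
        rw [← h0] at h6
        exact h6
    · have hpos : 0 < (∑ j, c j) * (2 / 5) ^ w := by positivity
      have h6 : ((univ.filter fun T : Fin (n + 1) × Fin 3 → Fin n =>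
          (∑ j, c j) * (2 / 5) ^ w < ∑ j ∈ bad T, c j).card : ℝ) * ((∑ j, c j) * (2 / 5) ^ w) ≤
          ∑ T : Fin (n + 1) × Fin 3 → Fin n, ∑ j ∈ bad T, c j := by
        rw [← nsmul_eq_mul]
        refine (Finset.card_nsmul_le_sum _ (fun T => ∑ j ∈ bad T, c j) _ ?_).trans ?_
        · intro T hT
          exact (Finset.mem_filter.1 hT).2.le
        · exact Finset.sum_le_sum_of_subset_of_nonneg (Finset.subset_univ _)
            fun T _ _ => Finset.sum_nonneg fun j _ => hc j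
      have h7 := h6.trans hav
      have h8 : (∑ j, c j) * (2 / 9 * (2 / 5) ^ w * M) =
        (2 / 9 * M) * ((∑ j, c j) * (2 / 5) ^ w) := by ring
      rw [h8] at h7
      exact le_of_mul_le_mul_right h7 hpos
  have hsm : ∀ u : ℕ, 1 ≤ u → (2 : ℝ) * ((1 / 10) ^ (u + 1) / (1 - 1 / 10)) ≤ 1 / 10 := by
    intro u hu
    have e1 : ((1 : ℝ) / 10) ^ (u + 1) ≤ (1 / 10) ^ 2 :=
      pow_le_pow_of_le_one (by norm_num) (by norm_num) (by omega)
    calc (2 : ℝ) * ((1 / 10) ^ (u + 1) / (1 - 1 / 10)) = (20 / 9) * (1 / 10) ^ (u + 1) := by ring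
      _ ≤ (20 / 9) * (1 / 10) ^ 2 := mul_le_mul_of_nonneg_left e1 (by norm_num)
      _ ≤ 1 / 10 := by norm_num
  have h8 : (2 : ℝ) * ((1 / 10) ^ (0 + 1) / (1 - 1 / 10)) = 2 / 9 := by norm_num
  rw [h8] at h1 h2
  rw [Finset.card_empty, Nat.cast_zero, zero_add, one_mul] at h1 h2
  have h9 : ((2 : ℝ) * ((1 / 10) ^ (w + 1) / (1 - 1 / 10)) + 2 / 9) * M ≤
      (1 / 10 + 2 / 9) * M := mul_le_mul_of_nonneg_right (by linarith [hsm w hw]) hM0.le
  have h10 : ((2 : ℝ) * ((1 / 10) ^ (t + 1) / (1 - 1 / 10)) + 2 / 9) * M ≤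
      (1 / 10 + 2 / 9) * M :=
    mul_le_mul_of_nonneg_right (by linarith [hsm t (hw.trans hwt)]) hM0.le
  have h11 : M ≤ (1 / 10 + 2 / 9) * M + (1 / 10 + 2 / 9) * M + 2 / 9 * M :=
    h5.trans (add_le_add (add_le_add (h1.trans h9) (h2.trans h10)) hN)
  nlinarith

/-- **Threshold reductions of 3-SAT need many strings.** -/
theorem thr_bound {X : Type} {n s w q : ℕ} {ι : Fin n → X} (hι : Function.Injective ι)
    (E : Ext ι) (F : TRed (Clause 3 X) (Fin n) (act 3 E)) (hs : ∀ j, (F.S j).card ≤ s)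
    {θ δ : ℝ} (hdec : ∀ Φ ∈ Small 3 X (4 * (n + 1)),
      (Sat Φ → θ + δ ≤ F.value Φ) ∧ (¬ Sat Φ → F.value Φ ≤ θ))
    (hc : ∀ j, F.cost j < 2 ^ w) (hW : 2 * F.weight ≤ δ * 2 ^ w) (hw : 1 ≤ w) (hq : 1 ≤ q)
    (hn : 8000 * (q * w) ≤ n) :
    δ * 2 ^ q ≤ 2 * F.weight * s := by
  classical
  obtain ⟨L, rfl⟩ : ∃ L, q = L + 1 := ⟨q - 1, by omega⟩
  have hwt : w ≤ (L + 1) * w := Nat.le_mul_of_pos_left _ (Nat.succ_pos _)
  have hQ : ∀ j, (avoid3 F j).card + 1 ≤ 4 ^ w := by
    intro j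
    refine (card_avoid3 F j).trans ?_
    have h1 : (F.cost j + 1) ^ 2 ≤ (2 ^ w) ^ 2 := Nat.pow_le_pow_left (hc j) 2
    have h2 : (2 ^ w) ^ 2 = 4 ^ w := by
      rw [← pow_mul, mul_comm, pow_mul]
      norm_num
    rw [← h2]
    exact h1
  obtain ⟨T, hB, hT, J0, hJ0, hav⟩ := exists_T3 n w ((L + 1) * w) hw hwt hn (avoid3 F) hQ
    (fun j => |F.c j|) (fun j => abs_nonneg _)
  have h1 := thr_main hι E F hs T w hw hB (by rw [Fintype.card_fin]; exact Nat.lt_succ_self n)
    J0 hav hT le_rfl (fun b => hdec _ (phi_card (by norm_num) T b))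
  have h2 : 2 * (∑ j ∈ J0, |F.c j|) ≤ δ := by
    have h3 : (∑ j ∈ J0, |F.c j|) ≤ F.weight * (2 / 5) ^ w := hJ0
    have h4 : (2 : ℝ) ^ w * (2 / 5) ^ w ≤ 1 := by
      rw [← mul_pow]
      exact pow_le_one₀ (by norm_num) (by norm_num)
    have h5 : 0 ≤ F.weight := Finset.sum_nonneg fun j _ => abs_nonneg _
    have h6 : 0 ≤ δ := by
      by_contra h
      rw [not_le] at h
      have : δ * 2 ^ w < 0 := mul_neg_of_neg_of_pos h (by positivity)
      linarith
    calc 2 * (∑ j ∈ J0, |F.c j|) ≤ 2 * (F.weight * (2 / 5) ^ w) := by linarith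
      _ = (2 * F.weight) * (2 / 5) ^ w := by ring
      _ ≤ (δ * 2 ^ w) * (2 / 5) ^ w := mul_le_mul_of_nonneg_right hW (by positivity)
      _ = δ * (2 ^ w * (2 / 5) ^ w) := by ring
      _ ≤ δ * 1 := mul_le_mul_of_nonneg_left h4 h6
      _ = δ := mul_one _
  have h3 : 2 * (∑ j ∈ J0, |F.c j|) * 2 ^ (L + 1) ≤ δ * 2 ^ (L + 1) :=
    mul_le_mul_of_nonneg_right h2 (by positivity)
  linarith

/-- **Polynomial cost.** -/
theorem thr_poly {X : Type} {n s c : ℕ} {ι : Fin n → X} (hι : Function.Injective ι)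
    (E : Ext ι) (F : TRed (Clause 3 X) (Fin n) (act 3 E)) (hs : ∀ j, (F.S j).card ≤ s)
    {θ δ : ℝ} (hδ : 0 < δ) (hdec : ∀ Φ ∈ Small 3 X (4 * (n + 1)),
      (Sat Φ → θ + δ ≤ F.value Φ) ∧ (¬ Sat Φ → F.value Φ ≤ θ))
    (hc : ∀ j, F.cost j ≤ n ^ c) (hW : 2 * F.weight ≤ δ * n ^ c)
    (hn : 8000 * (c * (Nat.log 2 n + 1) + 1) ≤ n) :
    2 ^ (n / (8000 * (c * (Nat.log 2 n + 1) + 1))) ≤ n ^ c * s := by
  set L := Nat.log 2 n + 1 with hL
  have hn' : n < 2 ^ L := Nat.lt_pow_succ_log_self (by norm_num) n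
  have hpow : n ^ c ≤ 2 ^ (c * L) := by
    calc n ^ c ≤ (2 ^ L) ^ c := Nat.pow_le_pow_left hn'.le c
      _ = 2 ^ (c * L) := by rw [← pow_mul, mul_comm]
  have hlt : n ^ c < 2 ^ (c * L + 1) :=
    lt_of_le_of_lt hpow (Nat.pow_lt_pow_right (by norm_num) (Nat.lt_succ_self _))
  set q := n / (8000 * (c * L + 1)) with hq
  have hq1 : 1 ≤ q := (Nat.one_le_div_iff (by positivity)).2 hn
  have hq2 : 8000 * (q * (c * L + 1)) ≤ n := by
    have h1 := Nat.div_mul_le_self n (8000 * (c * L + 1))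
    calc 8000 * (q * (c * L + 1)) = q * (8000 * (c * L + 1)) := by ring
      _ ≤ n := h1
  have h1 := thr_bound (w := c * L + 1) (q := q) hι E F hs hdec (fun j => (hc j).trans_lt hlt)
    (hW.trans (mul_le_mul_of_nonneg_left (by exact_mod_cast hlt.le) hδ.le)) (Nat.succ_pos _) hq1
    hq2
  have h2 : δ * 2 ^ q ≤ δ * (n ^ c * s) := by
    calc δ * 2 ^ q ≤ 2 * F.weight * s := h1
      _ ≤ δ * n ^ c * s := mul_le_mul_of_nonneg_right hW (Nat.cast_nonneg _)
      _ = δ * (n ^ c * s) := by ring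
  have h3 := le_of_mul_le_mul_left h2 hδ
  exact_mod_cast h3

end Pool.Agent.H550R2.SP
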