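import Pool.Agent.H550R2.SP.Thr2
import Pool.Agent.H550R2.SP.Defs4

set_option autoImplicit false
set_option linter.unusedSectionVars false

/-! Truth-table reductions. -/

namespace Pool.Agent.H550R2.SP

open Finset Pool.Agent.H550R2.Lift Pool.Agent.H550R2.Lin Pool.Agent.H550R2.WH
open Pool.Agent.H550R2.Neg (act)
open Pool.Agent.H30R2.NS (Clause Ext Sat Small phi_card)

section prod

variable {I V : Type} {A : (V → ZMod 2) → Equiv.Perm I}

/-- the queries of a monomial as one query -/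
def prodRed (F : PRed I V A) (k : F.K) : Red I (Σ j : F.mon k, F.O j.1) V A where
  ρ :=
    { toFun := fun g => Equiv.sigmaCongrRight fun j => (F.qry j.1).ρ g
      map_one' := by
        apply Equiv.ext
        rintro ⟨j, o⟩
        show (⟨j, (F.qry j.1).ρ 1 o⟩ : Σ j : F.mon k, F.O j.1) = ⟨j, o⟩
        rw [map_one]
        rfl
      map_mul' := fun g h => by
        apply Equiv.ext
        rintro ⟨j, o⟩
        show (⟨j, (F.qry j.1).ρ (g * h) o⟩ : Σ j : F.mon k, F.O j.1) =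
          ⟨j, (F.qry j.1).ρ g ((F.qry j.1).ρ h o)⟩
        rw [map_mul]
        rfl }
  alg := fun p => (F.qry p.1.1).alg p.2
  sym := fun p y h => by
    obtain ⟨j, o⟩ := p
    have h1 : (⟨j, (F.qry j.1).ρ (Multiplicative.ofAdd y) o⟩ : Σ j : F.mon k, F.O j.1) = ⟨j, o⟩ :=
      h
    exact (F.qry j.1).sym o y (by simpa using h1)

open Classical in
/-- the strings of a monomial -/
noncomputable def toS (F : PRed I V A) (k : F.K) :
    Finset ((Σ j : F.mon k, F.O j.1) → Bool) :=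
  univ.filter fun z => ∀ j : F.mon k, (fun o => z ⟨j, o⟩) ∈ F.S j.1

theorem mem_toS (F : PRed I V A) (k : F.K) (z : (Σ j : F.mon k, F.O j.1) → Bool) :
    z ∈ toS F k ↔ ∀ j : F.mon k, (fun o => z ⟨j, o⟩) ∈ F.S j.1 := by
  simp only [toS, Finset.mem_filter, Finset.mem_univ, true_and]

open Classical in
/-- the truth-table reduction as a threshold reduction -/
noncomputable def toT (F : PRed I V A) : TRed I V A where
  J := F.K
  finJ := F.finK
  O := fun k => Σ j : F.mon k, F.O j.1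
  fin := fun k => inferInstance
  qry := prodRed F
  equi := fun k x y p => by
    obtain ⟨j, o⟩ := p
    exact F.equi j.1 x y o
  S := toS F
  c := F.c

theorem toT_card (F : PRed I V A) {s d : ℕ} (hs1 : 1 ≤ s) (hs : ∀ j, (F.S j).card ≤ s)
    (hd : ∀ k, (F.mon k).card ≤ d) (k : F.K) : ((toT F).S k).card ≤ s ^ d := by
  classical
  have h1 : ((toT F).S k).card ≤ (Fintype.piFinset fun j : F.mon k => F.S j.1).card := by
    apply Finset.card_le_card_of_injOn (fun z j o => z ⟨j, o⟩)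
    · intro z hz
      have hz' := (mem_toS F k z).1 (Finset.mem_coe.1 hz)
      exact Finset.mem_coe.2 (Fintype.mem_piFinset.2 hz')
    · intro z _ z' _ h
      funext p
      obtain ⟨j, o⟩ := p
      exact congrFun (congrFun h j) o
  rw [Fintype.card_piFinset] at h1
  refine h1.trans ?_
  calc ∏ j : F.mon k, (F.S j.1).card ≤ ∏ _j : F.mon k, s :=
        Finset.prod_le_prod' fun j _ => hs j.1
    _ = s ^ (F.mon k).card := by
        rw [Finset.prod_const, Finset.card_univ, Fintype.card_coe]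
    _ ≤ s ^ d := Nat.pow_le_pow_right hs1 (hd k)

theorem toT_value (F : PRed I V A) (x : Set I) : (toT F).value x = F.value x := by
  classical
  unfold TRed.value PRed.value
  apply Finset.sum_congr rfl
  intro k _
  have h1 : ((toT F).qry k).out (ind x) ∈ (toT F).S k ↔
      ∀ j ∈ F.mon k, (F.qry j).out (ind x) ∈ F.S j := by
    constructor
    · intro h j hj
      exact (mem_toS F k _).1 h ⟨j, hj⟩
    · intro h
      exact (mem_toS F k _).2 fun j => h j.1 j.2
  by_cases h : ∀ j ∈ F.mon k, (F.qry j).out (ind x) ∈ F.S j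
  · rw [if_pos (h1.2 h)]
    have h2 : ∏ j ∈ F.mon k, F.ans x j = 1 := by
      apply Finset.prod_eq_one
      intro j hj
      unfold PRed.ans
      rw [if_pos (h j hj)]
    rw [h2, mul_one]
    rfl
  · rw [if_neg (fun h' => h (h1.1 h'))]
    push Not at h
    obtain ⟨j, hj, hj'⟩ := h
    have h2 : ∏ j ∈ F.mon k, F.ans x j = 0 := by
      apply Finset.prod_eq_zero hj
      unfold PRed.ans
      rw [if_neg hj']
    rw [h2, mul_zero]

theorem toT_cost (F : PRed I V A) (k : F.K) : (toT F).cost k = F.cost k := by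
  classical
  show Fintype.card (Σ j : F.mon k, F.O j.1) +
    ∑ p : (Σ j : F.mon k, F.O j.1), ((F.qry p.1.1).alg p.2).size = _
  rw [Fintype.card_sigma, Fintype.sum_sigma]
  unfold PRed.cost Red.size
  rw [Finset.sum_add_distrib, ← Finset.sum_coe_sort (F.mon k), ← Finset.sum_coe_sort (F.mon k)]

section avoid

variable [Fintype V] [DecidableEq V]

open Classical in
/-- the functionals that have to be avoided -/
noncomputable def avoid5 (F : PRed I V A) : Finset (V → ZMod 2) :=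
  univ.biUnion fun j => (F.qry j).rev ∪ (F.qry j).allC

theorem card_avoid5 (F : PRed I V A) : (avoid5 F).card + 1 ≤ (F.total + 1) ^ 2 := by
  classical
  have h1 : (avoid5 F).card ≤
      ∑ i, (Fintype.card (F.O i) + Fintype.card (F.O i) * (F.qry i).size) := by
    refine Finset.card_biUnion_le.trans (Finset.sum_le_sum fun i _ => ?_)
    exact (Finset.card_union_le _ _).trans (add_le_add (F.qry i).card_rev (F.qry i).card_allC)
  have h2 : ∀ i, (F.qry i).size ≤ F.total := by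
    intro i
    unfold PRed.total
    have h3 := Finset.single_le_sum
      (f := fun i => Fintype.card (F.O i) + (F.qry i).size) (fun j _ => Nat.zero_le _)
      (Finset.mem_univ i)
    have h4 : Fintype.card (F.O i) + (F.qry i).size ≤
      ∑ i, (Fintype.card (F.O i) + (F.qry i).size) := h3
    omega
  have h3 : ∑ i, Fintype.card (F.O i) ≤ F.total := by
    unfold PRed.total
    exact Finset.sum_le_sum fun i _ => Nat.le_add_right _ _
  have h4 : ∑ i, Fintype.card (F.O i) * (F.qry i).size ≤ F.total * F.total := by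
    calc ∑ i, Fintype.card (F.O i) * (F.qry i).size ≤ ∑ i, Fintype.card (F.O i) * F.total :=
          Finset.sum_le_sum fun i _ => Nat.mul_le_mul_left _ (h2 i)
      _ = (∑ i, Fintype.card (F.O i)) * F.total := (Finset.sum_mul _ _ _).symm
      _ ≤ F.total * F.total := Nat.mul_le_mul_right _ h3
  rw [Finset.sum_add_distrib] at h1
  have h5 : (F.total + 1) ^ 2 = F.total * F.total + 2 * F.total + 1 := by ring
  omega

theorem stab_prod (F : PRed I V A) (k : F.K) (j : F.mon k) (o : F.O j.1) :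
    stab (prodRed F k).ρ ⟨j, o⟩ = stab (F.qry j.1).ρ o := by
  ext y
  rw [mem_stab, mem_stab]
  show ((⟨j, (F.qry j.1).ρ (Multiplicative.ofAdd y) o⟩ : Σ j : F.mon k, F.O j.1) = ⟨j, o⟩) ↔ _
  simp

theorem avoid_sub (F : PRed I V A) (k : F.K) : avoid3 (toT F) k ⊆ avoid5 F := by
  classical
  intro p hp
  rcases Finset.mem_union.1 hp with h | h
  · have h0 : ∃ o, Perp (stab ((toT F).qry k).ρ o) p := by
      unfold Red.rev at h
      simpa only [Finset.mem_filter, Finset.mem_univ, true_and] using h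
    obtain ⟨⟨j, o⟩, h1⟩ := h0
    have h2 : Perp (stab (F.qry j.1).ρ o) p := by
      rw [← stab_prod F k j o]
      exact h1
    exact Finset.mem_biUnion.2 ⟨j.1, Finset.mem_univ _,
      Finset.mem_union_left _ ((F.qry j.1).mem_rev h2)⟩
  · obtain ⟨⟨j, o⟩, -, h1⟩ := Finset.mem_biUnion.1 h
    have h2 : p ∈ ((F.qry j.1).alg o).charsH A (stab (F.qry j.1).ρ o) := by
      rw [← stab_prod F k j o]
      exact h1
    exact Finset.mem_biUnion.2 ⟨j.1, Finset.mem_univ _,
      Finset.mem_union_right _ (Finset.mem_biUnion.2 ⟨o, Finset.mem_univ _, h2⟩)⟩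

end avoid

end prod

/-- **Truth-table reductions of 3-SAT to sets with few strings.** -/
theorem tt_bound {X : Type} {n s d w q : ℕ} {ι : Fin n → X} (hι : Function.Injective ι)
    (E : Ext ι) (F : PRed (Clause 3 X) (Fin n) (act 3 E)) (hs1 : 1 ≤ s)
    (hs : ∀ j, (F.S j).card ≤ s) (hd : ∀ k, (F.mon k).card ≤ d)
    {θ δ : ℝ} (hdec : ∀ Φ ∈ Small 3 X (4 * (n + 1)),
      (Sat Φ → θ + δ ≤ F.value Φ) ∧ (¬ Sat Φ → F.value Φ ≤ θ))
    (hc : ∀ k, F.cost k < 2 ^ w) (hW : 2 * F.weight ≤ δ * 2 ^ w) (hw : 1 ≤ w) (hq : 1 ≤ q)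
    (hn : 8000 * (q * w) ≤ n) :
    δ * 2 ^ q ≤ 2 * F.weight * s ^ d := by
  have h1 := thr_bound (s := s ^ d) (w := w) (q := q) hι E (toT F) (toT_card F hs1 hs hd)
    (θ := θ) (δ := δ) (fun Φ hΦ => by rw [toT_value]; exact hdec Φ hΦ)
    (fun k => (toT_cost F k).trans_lt (hc k)) hW hw hq hn
  push_cast at h1
  exact h1

/-- **Any weight.** -/
theorem tt_total {X : Type} {n s d w q : ℕ} {ι : Fin n → X} (hι : Function.Injective ι)
    (E : Ext ι) (F : PRed (Clause 3 X) (Fin n) (act 3 E)) (hs1 : 1 ≤ s)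
    (hs : ∀ j, (F.S j).card ≤ s) (hd : ∀ k, (F.mon k).card ≤ d)
    {θ δ : ℝ} (hdec : ∀ Φ ∈ Small 3 X (4 * (n + 1)),
      (Sat Φ → θ + δ ≤ F.value Φ) ∧ (¬ Sat Φ → F.value Φ ≤ θ))
    (hc : F.total < 2 ^ w) (hw : 1 ≤ w) (hq : 1 ≤ q) (hn : 8000 * (q * w) ≤ n) :
    δ * 2 ^ q ≤ F.weight * s ^ d := by
  classical
  obtain ⟨L, rfl⟩ : ∃ L, q = L + 1 := ⟨q - 1, by omega⟩
  have hwt : w ≤ (L + 1) * w := Nat.le_mul_of_pos_left _ (Nat.succ_pos _)
  have hQ : (avoid5 F).card + 1 ≤ 4 ^ w := by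
    refine (card_avoid5 F).trans ?_
    have h1 : (F.total + 1) ^ 2 ≤ (2 ^ w) ^ 2 := Nat.pow_le_pow_left hc 2
    have h2 : (2 ^ w) ^ 2 = 4 ^ w := by
      rw [← pow_mul, mul_comm, pow_mul]
      norm_num
    rw [← h2]
    exact h1
  obtain ⟨T, hB, hav, hT⟩ := exists_T n w ((L + 1) * w) hw hwt hn (avoid5 F) hQ
  have h1 := thr_main hι E (toT F) (s := s ^ d) (toT_card F hs1 hs hd) T w hw hB
    (by rw [Fintype.card_fin]; exact Nat.lt_succ_self n) ∅
    (fun k _ p hp => hav p (avoid_sub F k hp)) hT le_rfl (θ := θ) (δ := δ)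
    (fun b => by rw [toT_value]; exact hdec _ (phi_card (by norm_num) T b))
  rw [Finset.sum_empty, zero_mul, add_zero] at h1
  push_cast at h1
  exact h1

/-- **Polynomial parameters.** -/
theorem tt_poly {X : Type} {n s d c : ℕ} {ι : Fin n → X} (hι : Function.Injective ι)
    (E : Ext ι) (F : PRed (Clause 3 X) (Fin n) (act 3 E)) (hs1 : 1 ≤ s)
    (hs : ∀ j, (F.S j).card ≤ s) (hd : ∀ k, (F.mon k).card ≤ d)
    {θ δ : ℝ} (hδ : 0 < δ) (hdec : ∀ Φ ∈ Small 3 X (4 * (n + 1)),
      (Sat Φ → θ + δ ≤ F.value Φ) ∧ (¬ Sat Φ → F.value Φ ≤ θ))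
    (hc : ∀ k, F.cost k ≤ n ^ c) (hsc : s ≤ n ^ c) (hW : 2 * F.weight ≤ δ * n ^ c) :
    n < 8000 * ((c * (Nat.log 2 n + 1) * (d + 1) + 1) * (c * (Nat.log 2 n + 1) + 1)) := by
  by_contra hcon
  rw [not_lt] at hcon
  set L := Nat.log 2 n + 1 with hL
  have hn' : n < 2 ^ L := Nat.lt_pow_succ_log_self (by norm_num) n
  have hpow : n ^ c ≤ 2 ^ (c * L) := by
    calc n ^ c ≤ (2 ^ L) ^ c := Nat.pow_le_pow_left hn'.le c
      _ = 2 ^ (c * L) := by rw [← pow_mul, mul_comm]
  have hlt : n ^ c < 2 ^ (c * L + 1) :=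
    lt_of_le_of_lt hpow (Nat.pow_lt_pow_right (by norm_num) (Nat.lt_succ_self _))
  have h1 := tt_bound (w := c * L + 1) (q := c * L * (d + 1) + 1) hι E F hs1 hs hd hdec
    (fun k => (hc k).trans_lt hlt)
    (hW.trans (mul_le_mul_of_nonneg_left (by exact_mod_cast hlt.le) hδ.le)) (Nat.succ_pos _)
    (Nat.succ_pos _) hcon
  have h2 : δ * 2 ^ (c * L * (d + 1) + 1) ≤ δ * (2 : ℝ) ^ (c * L * (d + 1)) := by
    calc δ * 2 ^ (c * L * (d + 1) + 1) ≤ 2 * F.weight * s ^ d := h1
      _ ≤ δ * n ^ c * s ^ d := mul_le_mul_of_nonneg_right hW (by positivity)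
      _ = δ * ((n ^ c * s ^ d : ℕ) : ℝ) := by push_cast; ring
      _ ≤ δ * ((2 ^ (c * L) * (2 ^ (c * L)) ^ d : ℕ) : ℝ) := by
          refine mul_le_mul_of_nonneg_left ?_ hδ.le
          exact_mod_cast Nat.mul_le_mul hpow (Nat.pow_le_pow_left (hsc.trans hpow) d)
      _ = δ * (2 : ℝ) ^ (c * L * (d + 1)) := by
          push_cast
          rw [← pow_mul, ← pow_add]
          congr 2
          ring
  have h3 := le_of_mul_le_mul_left h2 hδ
  have h4 : (2 : ℝ) ^ (c * L * (d + 1)) < 2 ^ (c * L * (d + 1) + 1) :=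
    pow_lt_pow_right₀ (by norm_num) (Nat.lt_succ_self _)
  linarith

end Pool.Agent.H550R2.SP
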