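import Pool.Agent.H550R2.SP.Abs2
import Pool.Agent.H550R2.SP.Defs2
import Pool.Agent.H550R2.SP.Num

set_option autoImplicit false
set_option linter.unusedSectionVars false

/-! Oracles with few strings. -/

namespace Pool.Agent.H550R2.SP

open Finset Module Pool.Agent.H550R2.Lift Pool.Agent.H550R2.Lin Pool.Agent.H550R2.WH
open Pool.Agent.H550R2.Neg (rowT pr_rowT act idE)
open Pool.Agent.H550R2.Neg (act_add)
open Pool.Agent.H30R2.NS (A A_apply pp pp_nonneg Clause Phi Ext neg neg_apply neg_add Sat Satisfies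
  Small phi_card phi_sat_iff exists_unsat)

section final

variable {I V : Type} [Fintype V] [DecidableEq V] {r : ℕ} {A : (V → ZMod 2) → Equiv.Perm I}

/-- the computation of a query -/
def uq (F : UProc I V A r) (i : Fin r) : Red (I ⊕ Fin r) F.O V (exA A r) :=
  ⟨F.ρ, F.alg i, F.symq i⟩

open Classical in
/-- the functionals that have to be avoided -/
noncomputable def avoid2 (F : UProc I V A r) : Finset (V → ZMod 2) :=
  (univ.filter fun p => ∃ o, Perp (stab F.ρ o) p) ∪ (univ.biUnion fun i => (uq F i).allC) ∪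
    F.dec.charsH (exA A r) ⊤

theorem card_avoid2 (F : UProc I V A r) : (avoid2 F).card + 1 ≤ (F.cost + 1) ^ 2 := by
  classical
  have h1 : (avoid2 F).card ≤
      Fintype.card F.O + ∑ i, Fintype.card F.O * (uq F i).size + F.dec.size := by
    refine (Finset.card_union_le _ _).trans (add_le_add ?_ ?_)
    · refine (Finset.card_union_le _ _).trans (add_le_add (card_revealed F.ρ) ?_)
      exact Finset.card_biUnion_le.trans (Finset.sum_le_sum fun i _ => (uq F i).card_allC)
    · refine (F.dec.card_charsH (exA A r) ⊤ (fun y _ => F.sym y)).trans ?_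
      refine (Nat.mul_le_mul_right _ card_perp_top).trans ?_
      rw [one_mul]
  rw [← Finset.mul_sum] at h1
  have h2 : ∑ i, (uq F i).size = ∑ i, ∑ o, (F.alg i o).size := rfl
  rw [h2] at h1
  have h3 : F.cost = Fintype.card F.O + ∑ i, ∑ o, (F.alg i o).size + F.dec.size := rfl
  have h4 : Fintype.card F.O * ∑ i, ∑ o, (F.alg i o).size ≤ F.cost * F.cost :=
    Nat.mul_le_mul (by omega) (by omega)
  have h5 : (F.cost + 1) ^ 2 = F.cost * F.cost + 2 * F.cost + 1 := by ring
  omega

end final

section sat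

variable {V X : Type} [Fintype V] [DecidableEq V] {k m r : ℕ} {ι : V → X}
  (hι : Function.Injective ι) (E : Ext ι)

open Classical in
theorem answers_succ2 {I : Type} {A : (V → ZMod 2) → Equiv.Perm I} (F : UProc I V A r)
    (S : Finset (F.O → Bool)) (v : I → ℝ) (j : ℕ) (i : Fin r) :
    F.answers S v (j + 1) i =
      if i.1 = j then decide ((uq F i).out (inp v (F.answers S v j)) ∈ S)
      else F.answers S v j i := rfl

include hι in
/-- **No oracle procedure decides the systems with a good left-hand side.** -/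
theorem not_decides2 (F : UProc (Clause k X) V (act k E) r) (S : Finset (F.O → Bool)) {l t : ℕ}
    (hrs : r * S.card ≤ 2 ^ l)
    (T : Fin m × Fin k → V) (w : ℕ) (hw : 1 ≤ w) (hB : Base T w) (hm : Fintype.card V < m)
    (hav : ∀ q ∈ avoid2 F, ∀ S : Finset (Fin m), w < S.card → S.card ≤ 2 * w → rowT T S ≠ q)
    (hT : ∀ S : Finset (Fin m), 1 ≤ S.card → S.card ≤ t → rowT T S ≠ 0)
    (ht : (l * S.card + 1) * w ≤ t) :
    ∃ b b', Sat (Phi ι T b) ∧ ¬ Sat (Phi ι T b') ∧
      F.acc S (ind (Phi ι T b)) = F.acc S (ind (Phi ι T b')) := by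
  classical
  obtain ⟨bu, hbu⟩ := exists_unsat (ι := ι) hm T
  have hsat : ∀ b, Sat (Phi ι T b) ↔ ∃ g, A T g = b := by
    intro b
    constructor
    · rintro ⟨x, hx⟩
      exact ⟨fun v => x (ι v), funext fun j => (phi_sat_iff ι T b x).1 hx j⟩
    · rintro ⟨g, rfl⟩
      refine ⟨E.ext g, (phi_sat_iff ι T _ _).2 fun j => ?_⟩
      rw [A_apply]
      exact Finset.sum_congr rfl fun l _ => E.apply g _
  have hbr : bu ∉ LinearMap.range (A T) := by
    rintro ⟨g, hg⟩
    exact hbu ((hsat bu).2 ⟨g, hg⟩)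
  obtain ⟨φ, hφ1, hφ2⟩ := Submodule.exists_le_ker_of_notMem hbr
  obtain ⟨κ, hκ⟩ := exists_rep (prL (V := Fin m)) φ (fun x hx => by
    have h1 : x = 0 := by
      funext j
      have h2 := hx (Pi.single j 1)
      rw [prL_apply] at h2
      unfold pr at h2
      rw [Finset.sum_eq_single j (fun i _ hi => by rw [Pi.single_eq_of_ne hi, mul_zero])
        (fun h => absurd (Finset.mem_univ _) h), Pi.single_eq_same, mul_one] at h2
      exact h2
    rw [h1, map_zero])
  have hcomm : ∀ x y : Fin m → ZMod 2, pr x y = pr y x := fun x y =>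
    Finset.sum_congr rfl fun j _ => mul_comm _ _
  have hκ0 : κ ≠ 0 := by
    intro h
    apply hφ1
    rw [hκ, h, map_zero]
  have hκA : ∀ g, pr κ (A T g) = 0 := by
    intro g
    rw [hcomm]
    have h1 := hκ (A T g)
    rw [prL_apply] at h1
    rw [← h1]
    exact hφ2 ⟨g, rfl⟩
  have hB' : ∀ x, wS x ≤ t → (∀ g, pr x (A T g) = 0) → x = 0 := by
    intro x hx hg
    have h6 : rowT T (sp x) = 0 := by
      rw [← col1_apply]
      funext v
      have h1 := hg (Pi.single v 1)
      rw [← pr_col1] at h1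
      unfold pr at h1
      rw [Finset.sum_eq_single v (fun i _ hi => by rw [Pi.single_eq_of_ne hi, mul_zero])
        (fun h => absurd (Finset.mem_univ _) h), Pi.single_eq_same, mul_one] at h1
      exact h1
    have h7 : (sp x).card = 0 := by
      by_contra hne
      exact hT _ (Nat.one_le_iff_ne_zero.2 hne) hx h6
    funext j
    by_contra hj
    have h8 : j ∈ sp x := (mem_sp x j).2 hj
    rw [Finset.card_eq_zero.1 h7] at h8
    exact absurd h8 (Finset.notMem_empty j)
  have hW : ∀ (i : Fin r) (a : Fin r → Bool) b g, (uq F i).out (inp (ind (Phi ι T (b + A T g))) a) =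
      actW F.ρ (Multiplicative.ofAdd g) ((uq F i).out (inp (ind (Phi ι T b)) a)) :=
    fun i a b g => word_shift E (uq F i) (F.equi i) T a b g
  have hfix : ∀ (i : Fin r) (a : Fin r → Bool) b (H : Submodule (ZMod 2) (V → ZMod 2)) β,
      H ≤ St (actW F.ρ) ((uq F i).out (inp (ind (Phi ι T b)) a)) →
      (∀ x ∈ gens (A T) w H, pr x β = 0) →
      (uq F i).out (inp (ind (Phi ι T (b + β))) a) = (uq F i).out (inp (ind (Phi ι T b)) a) := by
    intro i a b H β hH hβ
    refine word_fix E hι (uq F i) (F.equi i) T hw hB ?_ ?_ a b H β hH hβ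
    · intro q hq
      exact hav q (Finset.mem_union_left _ (Finset.mem_union_left _ hq))
    · intro q hq
      exact hav q (Finset.mem_union_left _ (Finset.mem_union_right _
        (Finset.mem_biUnion.2 ⟨i, Finset.mem_univ _, hq⟩)))
  obtain ⟨g, b, hb, hans⟩ := main2 (w := w) (t := t) (l := l) (actW F.ρ)
    (fun i a b => (uq F i).out (inp (ind (Phi ι T b)) a)) hW hfix S hrs hB' ht κ hκ0 hκA
  have hconv : ∀ b j, (AProc.mk (fun _ => F.O → Bool) (fun _ => actW F.ρ)
      (fun i a b => (uq F i).out (inp (ind (Phi ι T b)) a)) hW hfix (fun _ => S)).ans b j =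
      F.answers S (ind (Phi ι T b)) j := by
    intro b j
    induction j with
    | zero => rfl
    | succ j ih =>
      funext i
      rw [AProc.ans_succ, answers_succ2, ih]
      by_cases hi : i.1 = j
      · rw [if_pos hi, if_pos hi]
        exact decide_eq_decide.2 Iff.rfl
      · rw [if_neg hi, if_neg hi]
  refine ⟨A T g, b, (hsat _).2 ⟨g, rfl⟩, ?_, ?_⟩
  · intro h
    obtain ⟨g', rfl⟩ := (hsat b).1 h
    exact hb (hκA g')
  · rw [hconv, hconv] at hans
    unfold UProc.acc
    rw [hans]
    -- the decision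
    have h3 : b = A T g + (A T g + b) := by
      have h4 := add_self_fin (A T g)
      rw [← add_assoc, h4, zero_add]
    have h5 : F.dec.run (inp (ind (Phi ι T (A T g))) (F.answers S (ind (Phi ι T (A T g))) r)) =
        F.dec.run (inp (ind (Phi ι T (A T g + (A T g + b))))
          (F.answers S (ind (Phi ι T (A T g))) r)) := by
      refine F.dec.run_eqH (exA_add (act_add E)) ⊤ wS_add wS_zero ?_
        (phi_linked hι E _ (A T g) (A T g + b) hw hB) (fun y _ => F.sym y) ?_
      · intro x hx hp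
        have h6 : rowT T (sp x) = 0 := by
          rw [← col1_apply]
          funext v
          have h1 := hp (Pi.single v 1) trivial
          unfold pr at h1
          rw [Finset.sum_eq_single v (fun i _ hi => by rw [Pi.single_eq_of_ne hi, mul_zero])
            (fun h => absurd (Finset.mem_univ _) h), Pi.single_eq_same, mul_one] at h1
          exact h1
        have h7 : (sp x).card = 0 := by
          by_contra hne
          rcases le_or_gt (sp x).card w with h8 | h8
          · exact hB.low _ (Nat.one_le_iff_ne_zero.2 hne) h8 h6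
          · exact hB.gap0 _ h8 hx h6
        rw [uB_apply, Finset.card_eq_zero.1 h7, Finset.sum_empty]
      · intro x hx hx' hc
        exact hav _ (Finset.mem_union_right _ hc) (sp x) hx hx' (col1_apply T x).symm
    rw [← h3] at h5
    exact h5

end sat

/-- **Deciding 3-SAT with an oracle that has few strings.** -/
theorem density_bound {X : Type} {n r w l : ℕ} {ι : Fin n → X} (hι : Function.Injective ι)
    (E : Ext ι) (F : UProc (Clause 3 X) (Fin n) (act 3 E) r)
    (S : Finset (F.O → Bool)) (hc : F.cost < 2 ^ w)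
    (hw : 1 ≤ w) (hrs : r * S.card ≤ 2 ^ l)
    (hdec : ∀ Φ ∈ Small 3 X (4 * (n + 1)), F.acc S (ind Φ) = true ↔ Sat Φ) :
    n < 8000 * (w * (l * S.card + 1)) := by
  classical
  by_contra hcon
  rw [not_lt] at hcon
  set t := w * (l * S.card + 1) with ht
  have hwt : w ≤ t := by
    rw [ht]
    exact Nat.le_mul_of_pos_right _ (Nat.succ_pos _)
  have hQ : (avoid2 F).card + 1 ≤ 4 ^ w := by
    refine (card_avoid2 F).trans ?_
    have h1 : (F.cost + 1) ^ 2 ≤ (2 ^ w) ^ 2 := Nat.pow_le_pow_left hc 2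
    have h2 : (2 ^ w) ^ 2 = 4 ^ w := by
      rw [← pow_mul, mul_comm, pow_mul]
      norm_num
    rw [← h2]
    exact h1
  obtain ⟨T, hB, hav, hT⟩ := exists_T n w t hw hwt hcon (avoid2 F) hQ
  obtain ⟨b, b', h1, h2, h3⟩ := not_decides2 hι E F S hrs T w hw hB
    (by rw [Fintype.card_fin]; exact Nat.lt_succ_self n) hav hT (le_of_eq (by rw [ht]; ring))
  have h4 : ∀ b, Phi ι T b ∈ Small 3 X (4 * (n + 1)) := fun b =>
    phi_card (by norm_num) T b
  have h5 := (hdec _ (h4 b)).2 h1
  rw [h3] at h5
  exact h2 ((hdec _ (h4 b')).1 h5)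

/-- **Polynomially many queries of polynomial cost.** -/
theorem density_poly {X : Type} {n r c : ℕ} {ι : Fin n → X} (hι : Function.Injective ι)
    (E : Ext ι) (F : UProc (Clause 3 X) (Fin n) (act 3 E) r)
    (S : Finset (F.O → Bool)) (hr : r ≤ n ^ c) (hc : F.cost ≤ n ^ c)
    (hdec : ∀ Φ ∈ Small 3 X (4 * (n + 1)), F.acc S (ind Φ) = true ↔ Sat Φ) :
    n ≤ 8000 * (c + 2) ^ 2 * (Nat.log 2 n + 1) ^ 2 * (S.card + 1) := by
  set L := Nat.log 2 n + 1 with hL
  have hn : n < 2 ^ L := Nat.lt_pow_succ_log_self (by norm_num) n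
  have hL1 : 1 ≤ L := Nat.succ_pos _
  have hpow : n ^ c ≤ 2 ^ (c * L) := by
    calc n ^ c ≤ (2 ^ L) ^ c := Nat.pow_le_pow_left hn.le c
      _ = 2 ^ (c * L) := by rw [← pow_mul, mul_comm]
  rcases le_or_gt n S.card with hs | hs
  · calc n ≤ S.card + 1 := by omega
      _ ≤ 8000 * (c + 2) ^ 2 * L ^ 2 * (S.card + 1) :=
          Nat.le_mul_of_pos_left _ (by positivity)
  · have h1 := density_bound (w := c * L + 1) (l := (c + 1) * L) hι E F S
      (lt_of_le_of_lt (hc.trans hpow) (Nat.pow_lt_pow_right (by norm_num) (Nat.lt_succ_self _)))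
      (Nat.succ_pos _) (by
        calc r * S.card ≤ 2 ^ (c * L) * 2 ^ L := Nat.mul_le_mul (hr.trans hpow) (hs.le.trans hn.le)
          _ = 2 ^ ((c + 1) * L) := by rw [← pow_add]; congr 1; ring) hdec
    refine h1.le.trans ?_
    have h2 : c * L + 1 ≤ (c + 2) * L := by nlinarith
    have h4 : (c + 1) * L * S.card + 1 ≤ (c + 2) * L * (S.card + 1) := by nlinarith
    calc 8000 * ((c * L + 1) * ((c + 1) * L * S.card + 1))
        ≤ 8000 * (((c + 2) * L) * ((c + 2) * L * (S.card + 1))) :=
          Nat.mul_le_mul_left _ (Nat.mul_le_mul h2 h4)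
      _ = 8000 * (c + 2) ^ 2 * L ^ 2 * (S.card + 1) := by ring

end Pool.Agent.H550R2.SP
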